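import Pool.Agent.Helper73.KT.Part
import Pool.Agent.Helper73.LF.Lin
import Pool.Agent.Helper73.LF.Chars
import Pool.Agent.Helper73.QC.Add
import Pool.Agent.Helper73.QC.Two
import Pool.Agent.Helper73.QC.Orbit
import Pool.Agent.Helper40.QC.K5
import Pool.Agent.Helper44.QC.SelfAny
import Pool.Agent.Helper41.AC.BalLift
import Pool.Agent.Helper41.AC.Even
import Pool.Agent.Helper41.AC.TenVal
import Pool.Agent.Helper41.AC.Weak

/-!
# Frobenius on the second cohomology of almost all cyclic covers of the plane branched along a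
# complete quadrilateral

`QuadrilateralH2 p n L V` lists properties of the geometric Frobenius on `V = H²(X̄, L)`,
`L = \bar ℚ_ℓ`, for a smooth projective surface `X` over the field of `p` elements which is an
abelian cover of exponent `n` of the plane, ramified only along the six lines of a complete
quadrilateral.  For the cyclic cover with the equation
`z ^ n = x ^ u 0 (1 - x) ^ u 1 y ^ u 2 (1 - y) ^ u 3 (x - y) ^ u 4`
only the parts `W a`, `a` a multiple of `u`, occur.
-/

open Module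

namespace Pool.Agent.Results.MP_1fe969_ag.AlmostAllCovers

open Pool.Agent.Helper73.KT Pool.Agent.Helper73.LF Pool.Agent.Helper73.QC

/-- the sum over the points of the complement of the quadrilateral -/
noncomputable def quadSum {K L : Type} [Field K] [Fintype K] [Field L]
    (χ : Fin 5 → MulChar K L) : L :=
  ∑ x : K, ∑ y : K, χ 0 x * χ 1 (1 - x) * χ 2 y * χ 3 (1 - y) * χ 4 (x - y)

/-- the exponents of `x ^ a 0 * (1 - x) ^ a 1 * y ^ a 2 * (1 - y) ^ a 3 * (x - y) ^ a 4` along the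
ten curves at the boundary of the moduli space of five points on the projective line -/
def residues {R : Type} [CommRing R] (a : Fin 5 → R) : Fin 10 → R :=
  ![a 0, a 1, a 2, a 3, a 4, -(a 0 + a 1 + a 4), -(a 2 + a 3 + a 4), a 0 + a 2 + a 4,
    a 1 + a 3 + a 4, -(a 0 + a 1 + a 2 + a 3 + a 4)]

/-- the power of the character `τ` with exponent `(q - 1) a / n`, `q` the number of elements -/
noncomputable def power {K L : Type} [Field K] [Fintype K] [Field L] {n : ℕ} (τ : MulChar K L)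
    (a : ZMod n) : MulChar K L := τ ^ ((Fintype.card K - 1) * a.val / n)

/-- Frobenius on `V = H²(X̄, L)` and the parts of `V` belonging to the characters of the group of
the cover. -/
structure QuadrilateralH2 (p n : ℕ) (L V : Type) [Field L] [AddCommGroup V] [Module L V] where
  /-- the geometric Frobenius -/
  Fr : End L V
  injective : Function.Injective Fr
  /-- the cup product -/
  B : LinearMap.BilinForm L V
  symm : ∀ x y, B x y = B y x
  similitude : ∀ x y, B (Fr x) (Fr y) = (p : L) ^ 2 * B x y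
  /-- the span of algebraic classes -/
  N : Submodule L V
  N_stable : ∀ x ∈ N, Fr x ∈ N
  N_semisimple : End.IsSemisimple (Fr.restrict N_stable)
  /-- the part belonging to the character with the exponents `a` -/
  W : (Fin 5 → ZMod n) → Submodule L V
  span : N ⊔ ⨆ a, W a = ⊤
  stable : ∀ a, ∀ x ∈ W a, Fr x ∈ W (fun i => p * a i)
  perfect : ∀ a, ∀ v ∈ W a, (∀ w ∈ W (-a), B v w = 0) → v = 0
  finrank_le : ∀ a, finrank L (W a) ≤ 2
  /-- the character is unramified along one of the ten curves and its square is not trivial -/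
  finrank_le_one : ∀ a, (∃ i, residues a i = 0) → (∃ i, 2 * a i ≠ 0) → finrank L (W a) ≤ 1
  /-- the trace formula -/
  trace_formula : ∀ (m : ℕ) (K : Type) [Field K] [Fintype K],
    Fintype.card K = p ^ m → ∃ τ : MulChar K L, orderOf τ = p ^ m - 1 ∧
      ∀ a, W a ≠ ⊥ → (∀ i, residues a i ≠ 0) → (∀ i, (p : ZMod n) ^ m * a i = a i) →
        ∀ h : ∀ x ∈ W a, (Fr ^ m) x ∈ W a,
          LinearMap.trace L (W a) ((Fr ^ m).restrict h) = quadSum fun i => power τ (a i)

/-- the span of `N` and the parts belonging to the multiples of `u` -/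
def cyclicPart {p n : ℕ} {L V : Type} [Field L] [AddCommGroup V] [Module L V]
    (H : QuadrilateralH2 p n L V) (u : Fin 5 → ZMod n) : Submodule L V :=
  H.N ⊔ ⨆ j : ZMod n, H.W (fun i => j * u i)

/-- For all primes `p` not dividing `n` and all data of exponent `n` Frobenius is semisimple on the
span of `N` and the parts belonging to the multiples of `u`. -/
def AlwaysSemisimple (n : ℕ) (u : Fin 5 → ZMod n) : Prop :=
  ∀ (p : ℕ) (L V : Type) [Field L] [CharZero L] [IsAlgClosed L] [AddCommGroup V] [Module L V]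
    [FiniteDimensional L V] (H : QuadrilateralH2 p n L V), p.Prime → p.Coprime n →
      ∃ h : ∀ x ∈ cyclicPart H u, H.Fr x ∈ cyclicPart H u, End.IsSemisimple (H.Fr.restrict h)

/-- For all primes `p` not dividing `n`, all data of exponent `n` and all `m > 0` the eigenvalue
`p ^ m` of the `m`-th power of Frobenius on this span is semisimple. -/
def AlwaysTateSemisimple (n : ℕ) (u : Fin 5 → ZMod n) : Prop :=
  ∀ (p : ℕ) (L V : Type) [Field L] [CharZero L] [IsAlgClosed L] [AddCommGroup V] [Module L V]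
    [FiniteDimensional L V] (H : QuadrilateralH2 p n L V), p.Prime → p.Coprime n →
      ∀ m : ℕ, 0 < m → ∀ x ∈ cyclicPart H u,
        ((H.Fr ^ m - (p : L) ^ m • 1) ^ 2 : End L V) x = 0 → (H.Fr ^ m) x = (p : L) ^ m • x

/-- the number of sequences of ten elements of `Fin m` in which each element occurs an even number
of times -/
def evenCount (m : ℕ) : ℕ :=
  (Finset.univ.filter fun c : Fin 10 → Fin m =>
    ∀ i, Even (Finset.univ.filter fun j => c j = c i).card).card

/-- the number of sequences of ten elements of `Fin m` with a sign `0` or `1` in which each element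
occurs as often with the sign `0` as with the sign `1` -/
def balancedCount (m : ℕ) : ℕ :=
  (Finset.univ.filter fun c : Fin 10 → Fin m × Fin 2 => ∀ x,
    (Finset.univ.filter fun j => c j = (x, 0)).card =
      (Finset.univ.filter fun j => c j = (x, 1)).card).card

section

variable {p n : ℕ} {L V : Type} [Field L] [AddCommGroup V] [Module L V]

theorem stable_pow (H : QuadrilateralH2 p n L V) (j : ℕ) (a : Fin 5 → ZMod n) :
    ∀ x ∈ H.W a, (H.Fr ^ j) x ∈ H.W (fun i => (p : ZMod n) ^ j * a i) := by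
  induction j with
  | zero =>
    intro x hx
    simp only [pow_zero, one_mul]
    exact hx
  | succ j ih =>
    intro x hx
    have h := H.stable _ _ (ih x hx)
    simp only [← mul_assoc, ← pow_succ'] at h
    rw [pow_succ' H.Fr]
    exact h

theorem stable_of (H : QuadrilateralH2 p n L V) {m : ℕ} {a : Fin 5 → ZMod n}
    (ha : ∀ i, (p : ZMod n) ^ m * a i = a i) : ∀ x ∈ H.W a, (H.Fr ^ m) x ∈ H.W a := by
  intro x hx
  have h := stable_pow H m a x hx
  rwa [funext ha] at h

theorem similitude_pow (H : QuadrilateralH2 p n L V) (j : ℕ) (x y : V) :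
    H.B ((H.Fr ^ j) x) ((H.Fr ^ j) y) = ((p : L) ^ j) ^ 2 * H.B x y := by
  induction j generalizing x y with
  | zero => simp
  | succ j ih =>
    rw [pow_succ, End.mul_apply, End.mul_apply, ih, H.similitude, pow_succ]
    ring

theorem ne_bot_neg (H : QuadrilateralH2 p n L V) {a : Fin 5 → ZMod n} (h : H.W a ≠ ⊥) :
    H.W (-a) ≠ ⊥ := by
  intro h0
  apply h
  rw [eq_bot_iff]
  intro v hv
  rw [Submodule.mem_bot]
  apply H.perfect a v hv
  intro w hw
  rw [h0, Submodule.mem_bot] at hw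
  rw [hw, map_zero]

variable [CharZero L] [IsAlgClosed L] [FiniteDimensional L V]

/-- a part belonging to a character of order two -/
theorem case_two (H : QuadrilateralH2 p n L V) (hp : p.Prime) (hpn : p.Coprime n)
    {a : Fin 5 → ZMod n} (h2 : ∀ i, 2 * a i = 0) : H.W a ≤ ⨆ c, H.Fr.eigenspace c := by
  have hneg : -a = a := by
    funext i
    rw [Pi.neg_apply]
    linear_combination - h2 i
  have hpa : ∀ i, (p : ZMod n) ^ 1 * a i = a i := by
    intro i
    rw [pow_one]
    rcases hp.eq_two_or_odd' with h | ⟨j, hj⟩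
    · -- `2` is a unit
      have h3 : IsUnit (2 : ZMod n) := by
        have := (ZMod.isUnit_iff_coprime p n).2 hpn
        rw [h] at this
        exact_mod_cast this
      have h4 : a i = 0 := h3.mul_right_eq_zero.1 (h2 i)
      rw [h4, mul_zero]
    · rw [hj]
      push_cast
      linear_combination (j : ZMod n) * h2 i
  refine le_of_restrict H.injective one_pos (stable_of H hpa) ?_
  intro x c hx
  by_contra hx'
  have hc : ((p : L) ^ 1) ^ 2 ≠ 0 := pow_ne_zero _ (pow_ne_zero _ (Nat.cast_ne_zero.2 hp.ne_zero))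
  exact symm_no_block (T := (H.Fr ^ 1).restrict (stable_of H hpa))
    (H.B.compl₁₂ (H.W a).subtype (H.W a).subtype) hc
    (fun y z => similitude_pow H 1 (y : V) (z : V)) (fun y z => H.symm _ _)
    (fun y hy => Subtype.ext (H.perfect a y y.2 fun w hw => by
      rw [hneg] at hw
      exact hy ⟨w, hw⟩)) (H.finrank_le a) hx hx'

/-- a part on which a power of Frobenius has no Jordan block -/
theorem part (H : QuadrilateralH2 p n L V) {m : ℕ} (hm : 0 < m) {a : Fin 5 → ZMod n}
    (h2 : ∃ i, 2 * a i ≠ 0) (ha : ∀ i, (p : ZMod n) ^ m * a i = a i)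
    (hbad : H.W a ≠ ⊥ → (∀ i, residues a i ≠ 0) →
      ∀ (x : H.W a) (c : L), ((H.Fr ^ m).restrict (stable_of H ha) - c • 1)
        (((H.Fr ^ m).restrict (stable_of H ha) - c • 1) x) = 0 →
          ((H.Fr ^ m).restrict (stable_of H ha) - c • 1) x ≠ 0 → False) :
    H.W a ≤ ⨆ c, H.Fr.eigenspace c := by
  refine le_of_restrict H.injective hm (stable_of H ha) ?_
  intro x c hx
  by_contra hx'
  have h2' := two_le hx hx'
  have hne : H.W a ≠ ⊥ := by
    intro h0
    rw [h0, finrank_bot] at h2'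
    omega
  refine hbad hne ?_ x c hx hx'
  by_contra hdeg
  push Not at hdeg
  have := H.finrank_le_one a hdeg h2
  omega

end

section

variable {p n : ℕ} [hp : Fact p.Prime] [NeZero n] {L V : Type} [Field L] [AddCommGroup V]
    [Module L V] [CharZero L] [IsAlgClosed L] [FiniteDimensional L V]

omit [NeZero n] in
theorem kill {m : ℕ} {a : ZMod n} (ha : (p : ZMod n) ^ m * a = a) :
    ((p ^ m - 1 : ℕ) : ZMod n) * a = 0 := by
  rw [Nat.cast_sub (Nat.one_le_pow _ _ hp.out.pos), Nat.cast_one, Nat.cast_pow, sub_mul, ha,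
    one_mul, sub_self]

omit hp [NeZero n] in
theorem exists_addChar (L : Type) [Field L] [CharZero L] [IsAlgClosed L] (K : Type) [Field K]
    [Fintype K] : ∃ ψ : AddChar K L, ψ.IsPrimitive := by
  have h : ringChar L ≠ ringChar K := by
    rw [ringChar.eq_zero]
    intro h
    have : CharP K 0 := by
      rw [h]
      exact ringChar.charP K
    have : CharZero K := CharP.charP_to_charZero K
    exact not_injective_infinite_finite (Nat.cast : ℕ → K) Nat.cast_injective
  let ψ := AddChar.FiniteField.primitiveChar K L h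
  have hcyc : IsCyclotomicExtension {(ψ.n : ℕ)} L (CyclotomicField ψ.n L) :=
    CyclotomicField.isCyclotomicExtension ψ.n L
  have hfin : FiniteDimensional L (CyclotomicField ψ.n L) :=
    IsCyclotomicExtension.finiteDimensional {(ψ.n : ℕ)} L (CyclotomicField ψ.n L)
  let φ : CyclotomicField ψ.n L →ₐ[L] L := IsAlgClosed.lift
  exact ⟨_, ψ.prim.compMulHom_of_isPrimitive (f := (φ : CyclotomicField ψ.n L →* L)) φ.injective⟩

omit hp [NeZero n] in
theorem residues_neg (a : Fin 5 → ZMod n) (i : Fin 10) : residues (-a) i = - residues a i := by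
  fin_cases i <;> simp [residues] <;> ring

omit hp [NeZero n] [CharZero L] [IsAlgClosed L] in
theorem quadSum_eq {K : Type} [Field K] [Fintype K] (τ : MulChar K L) (a : Fin 5 → ZMod n) :
    (quadSum fun i => power τ (a i)) =
      quad (ch τ (a 0)) (ch τ (a 1)) (ch τ (a 2)) (ch τ (a 3)) (ch τ (a 4)) := rfl

omit [IsAlgClosed L] in
/-- the traces on a part and on the dual part if there is a Jordan block -/
theorem dual_traces (H : QuadrilateralH2 p n L V) {m : ℕ} {a : Fin 5 → ZMod n}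
    (ha : ∀ i, (p : ZMod n) ^ m * a i = a i) (hne : H.W a ≠ ⊥)
    (hdeg : ∀ i, residues a i ≠ 0) {x : H.W a} {c : L}
    (hx : ((H.Fr ^ m).restrict (stable_of H ha) - c • 1)
        (((H.Fr ^ m).restrict (stable_of H ha) - c • 1) x) = 0)
    (hx' : ((H.Fr ^ m).restrict (stable_of H ha) - c • 1) x ≠ 0)
    (K : Type) [Field K] [Fintype K] (hK : Fintype.card K = p ^ m) :
    ∃ τ : MulChar K L, orderOf τ = Fintype.card K - 1 ∧ c ≠ 0 ∧
      quad (ch τ (a 0)) (ch τ (a 1)) (ch τ (a 2)) (ch τ (a 3)) (ch τ (a 4)) = 2 * c ∧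
      quad (ch τ (a 0))⁻¹ (ch τ (a 1))⁻¹ (ch τ (a 2))⁻¹ (ch τ (a 3))⁻¹ (ch τ (a 4))⁻¹ =
        2 * ((Fintype.card K : L) ^ 2 / c) := by
  obtain ⟨τ, hτ, htr⟩ := H.trace_formula m K hK
  rw [← hK] at hτ
  have hKa : ∀ i, ((Fintype.card K - 1 : ℕ) : ZMod n) * a i = 0 := by
    intro i
    rw [hK]
    exact kill (ha i)
  have ha' : ∀ i, (p : ZMod n) ^ m * (-a) i = (-a) i := by
    intro i
    rw [Pi.neg_apply, mul_neg, ha]
  have hQ0 : ((p : L) ^ m) ^ 2 ≠ 0 :=
    pow_ne_zero _ (pow_ne_zero _ (Nat.cast_ne_zero.2 hp.out.ne_zero))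
  have t1 := htr a hne hdeg ha (stable_of H ha)
  have t2 := htr (-a) (ne_bot_neg H hne) (fun i => by
    rw [residues_neg]
    exact neg_ne_zero.2 (hdeg i)) ha' (stable_of H ha')
  obtain ⟨hc, h1, h2⟩ := pair_trace (T := (H.Fr ^ m).restrict (stable_of H ha))
    (T' := (H.Fr ^ m).restrict (stable_of H ha'))
    (H.B.compl₁₂ (H.W a).subtype (H.W (-a)).subtype) hQ0
    (fun y z => similitude_pow H m (y : V) (z : V))
    (fun y hy => Subtype.ext (H.perfect a y y.2 fun w hw => hy ⟨w, hw⟩))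
    (fun z hz => Subtype.ext (H.perfect (-a) z z.2 fun w hw => by
      rw [neg_neg] at hw
      rw [H.symm]
      exact hz ⟨w, hw⟩)) (H.finrank_le a) hx hx'
  refine ⟨τ, hτ, hc, ?_, ?_⟩
  · rw [← h1, t1]
    rfl
  · rw [← ch_neg hτ (hKa 0), ← ch_neg hτ (hKa 1), ← ch_neg hτ (hKa 2), ← ch_neg hτ (hKa 3),
      ← ch_neg hτ (hKa 4), hK, Nat.cast_pow, ← h2, t2]
    rfl

omit [NeZero n] in
/-- the trace on a part which is the image of its dual under a power of Frobenius -/
theorem self_dual (H : QuadrilateralH2 p n L V) {f : ℕ} (hf : 0 < f) {a : Fin 5 → ZMod n}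
    (h2 : ∃ i, 2 * a i ≠ 0) (ha : ∀ i, (p : ZMod n) ^ f * a i = - a i)
    (hbad : ∀ (K : Type) [Field K] [Fintype K] (τ : MulChar K L),
      Fintype.card K = p ^ (2 * f) → orderOf τ = Fintype.card K - 1 →
          (∀ i, ((Fintype.card K - 1 : ℕ) : ZMod n) * a i = 0) → (∀ i, residues a i ≠ 0) →
          quad (ch τ (a 0)) (ch τ (a 1)) (ch τ (a 2)) (ch τ (a 3)) (ch τ (a 4)) =
            -2 * Fintype.card K → False) :
    H.W a ≤ ⨆ c, H.Fr.eigenspace c := by
  classical
  have ha2 : ∀ i, (p : ZMod n) ^ (2 * f) * a i = a i := by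
    intro i
    rw [two_mul, pow_add, mul_assoc, ha, mul_neg, ha, neg_neg]
  refine part H (by omega) h2 ha2 ?_
  intro hne hdeg x c hx hx'
  obtain ⟨K, _, _, hfin⟩ := exists_field (ZMod p) (show 0 < 2 * f by omega)
  have : Module.Finite (ZMod p) K := Module.finite_of_finrank_pos (by rw [hfin]; omega)
  have : Finite K := Module.finite_of_finite (ZMod p)
  have := Fintype.ofFinite K
  have hK : Fintype.card K = p ^ (2 * f) := by
    rw [Module.card_eq_pow_finrank (K := ZMod p), hfin, ZMod.card]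
  obtain ⟨τ, hτ, htr⟩ := H.trace_formula (2 * f) K hK
  rw [← hK] at hτ
  have t1 := htr a hne hdeg ha2 (stable_of H ha2)
  have hQ0 : ((p : L) ^ f) ^ 2 ≠ 0 :=
    pow_ne_zero _ (pow_ne_zero _ (Nat.cast_ne_zero.2 hp.out.ne_zero))
  have hfun : (fun i => (p : ZMod n) ^ f * a i) = -a := funext fun i => ha i
  have hst : ∀ y ∈ H.W a, (H.Fr ^ f) y ∈ H.W (-a) := by
    intro y hy
    have h := stable_pow H f a y hy
    rwa [hfun] at h
  have hst' : ∀ y ∈ H.W (-a), (H.Fr ^ f) y ∈ H.W a := by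
    intro y hy
    have h := stable_pow H f (-a) y hy
    have e : (fun i => (p : ZMod n) ^ f * (-a) i) = a := funext fun i => by
      rw [Pi.neg_apply, mul_neg, ha, neg_neg]
    rwa [e] at h
  -- the image of the part is its dual
  have hsurj : ∀ w ∈ H.W (-a), ∃ y ∈ H.W a, (H.Fr ^ f) y = w := by
    have hinj : Function.Injective (H.Fr ^ f) := by
      rw [End.coe_pow]
      exact H.injective.iterate _
    intro w hw
    let T : End L (H.W (-a)) := ((H.Fr ^ f) ∘ₗ (H.Fr ^ f)).restrict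
      (fun y hy => hst _ (hst' y hy))
    have hTi : Function.Injective T := by
      intro y z hyz
      have h := congrArg Subtype.val hyz
      exact Subtype.ext (hinj (hinj h))
    obtain ⟨y, hy⟩ := LinearMap.injective_iff_surjective.1 hTi ⟨w, hw⟩
    exact ⟨(H.Fr ^ f) (y : V), hst' _ y.2, congrArg Subtype.val hy⟩
  have h1 := self_trace (T := (H.Fr ^ (2 * f)).restrict (stable_of H ha2))
    (H.B.compl₁₂ (H.W a).subtype ((H.Fr ^ f) ∘ₗ (H.W a).subtype)) hQ0
    (fun y z => by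
      change H.B ((H.Fr ^ (2 * f)) (y : V)) ((H.Fr ^ f) (z : V)) =
        ((p : L) ^ f) ^ 2 * H.B (z : V) ((H.Fr ^ f) (y : V))
      rw [two_mul, pow_add, End.mul_apply, similitude_pow, H.symm])
    (fun y hy => Subtype.ext (H.perfect a y y.2 fun w hw => by
      obtain ⟨z, hz, rfl⟩ := hsurj w hw
      exact hy ⟨z, hz⟩)) (H.finrank_le a) hx hx'
  refine hbad K τ hK hτ (fun i => by rw [hK]; exact kill (ha2 i)) hdeg ?_
  have h3 : ((Fintype.card K : ℕ) : L) = ((p : L) ^ f) ^ 2 := by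
    rw [hK, ← pow_mul, mul_comm f 2]
    push_cast
    rfl
  rw [h3, ← h1, t1]
  rfl


/-- the self-dual case -/
theorem case_self (H : QuadrilateralH2 p n L V) {a : Fin 5 → ZMod n}
    (h2 : ∃ i, 2 * a i ≠ 0) (h : Pool.Agent.Helper73.QC.SelfDual p a) :
    H.W a ≤ ⨆ c, H.Fr.eigenspace c := by
  classical
  obtain ⟨f, r, j, hr, hr2, hf, -, hres⟩ := h
  have : Fact r.Prime := ⟨hr⟩
  have hf0 : 0 < f := by
    rcases f.eq_zero_or_pos with h | h
    · exfalso
      obtain ⟨i, hi⟩ := h2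
      apply hi
      have h3 := hf i
      rw [h, pow_zero, one_mul] at h3
      linear_combination h3
    · exact h
  refine self_dual H hf0 h2 hf ?_
  intro K _ _ τ hK hτ hKa hdeg hS
  exact Pool.Agent.Helper44.QC.quad_ne_residue hK hτ hr hr2 hf hdeg hres hS

/-- the product of the Gauss sums if there is a Jordan block -/
theorem block (H : QuadrilateralH2 p n L V) {m : ℕ} (hm0 : 0 < m) {a : Fin 5 → ZMod n}
    (ha : ∀ i, (p : ZMod n) ^ m * a i = a i) (hne : H.W a ≠ ⊥)
    (hdeg : ∀ i, residues a i ≠ 0) {x : H.W a} {c : L}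
    (hx : ((H.Fr ^ m).restrict (stable_of H ha) - c • 1)
        (((H.Fr ^ m).restrict (stable_of H ha) - c • 1) x) = 0)
    (hx' : ((H.Fr ^ m).restrict (stable_of H ha) - c • 1) x ≠ 0) :
    ∃ (K : Type) (_ : Field K) (_ : Fintype K) (τ : MulChar K L) (ψ : AddChar K L),
      Fintype.card K = p ^ m ∧ orderOf τ = Fintype.card K - 1 ∧ ψ.IsPrimitive ∧ c ≠ 0 ∧
        quad (ch τ (a 0)) (ch τ (a 1)) (ch τ (a 2)) (ch τ (a 3)) (ch τ (a 4)) = 2 * c ∧
        ten (ch τ (a 0)) (ch τ (a 1)) (ch τ (a 2)) (ch τ (a 3)) (ch τ (a 4)) ψ * (2 * c) =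
          (Fintype.card K : L) ^ 5 * (2 * ((Fintype.card K : L) ^ 2 / c)) := by
  classical
  obtain ⟨K, _, _, hfin⟩ := exists_field (ZMod p) hm0
  have : Module.Finite (ZMod p) K := Module.finite_of_finrank_pos (by rw [hfin]; exact hm0)
  have : Finite K := Module.finite_of_finite (ZMod p)
  have := Fintype.ofFinite K
  have hK : Fintype.card K = p ^ m := by
    rw [Module.card_eq_pow_finrank (K := ZMod p), hfin, ZMod.card]
  obtain ⟨τ, hτ, hc, h1, h2'⟩ := dual_traces H ha hne hdeg hx hx' K hK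
  obtain ⟨ψ, hψ⟩ := exists_addChar L K
  have hKa : ∀ i, ((Fintype.card K - 1 : ℕ) : ZMod n) * a i = 0 := by
    intro i
    rw [hK]
    exact kill (ha i)
  -- the characters are not trivial
  have hKadd : ∀ {b c : ZMod n}, ((Fintype.card K - 1 : ℕ) : ZMod n) * b = 0 →
      ((Fintype.card K - 1 : ℕ) : ZMod n) * c = 0 →
        ((Fintype.card K - 1 : ℕ) : ZMod n) * (b + c) = 0 := by
    intro b c hb hc
    rw [mul_add, hb, hc, add_zero]
  have d5 : a 0 + a 1 + a 4 ≠ 0 := neg_ne_zero.1 (hdeg 5)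
  have d6 : a 2 + a 3 + a 4 ≠ 0 := neg_ne_zero.1 (hdeg 6)
  have d7 : a 0 + a 2 + a 4 ≠ 0 := hdeg 7
  have d8 : a 1 + a 3 + a 4 ≠ 0 := hdeg 8
  have d9 : a 0 + a 1 + a 2 + a 3 + a 4 ≠ 0 := neg_ne_zero.1 (hdeg 9)
  have three : ∀ {b c d : ZMod n}, ((Fintype.card K - 1 : ℕ) : ZMod n) * b = 0 →
      ((Fintype.card K - 1 : ℕ) : ZMod n) * c = 0 →
      ((Fintype.card K - 1 : ℕ) : ZMod n) * d = 0 → b + c + d ≠ 0 →
        ch τ b * ch τ c * ch τ d ≠ 1 := by
    intro b c d hb hc hd h0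
    rw [← ch_add hτ hb hc, ← ch_add hτ (hKadd hb hc) hd]
    exact ch_ne_one hτ (hKadd (hKadd hb hc) hd) h0
  have five : ch τ (a 0) * ch τ (a 1) * ch τ (a 2) * ch τ (a 3) * ch τ (a 4) ≠ 1 := by
    rw [← ch_add hτ (hKa 0) (hKa 1), ← ch_add hτ (hKadd (hKa 0) (hKa 1)) (hKa 2),
      ← ch_add hτ (hKadd (hKadd (hKa 0) (hKa 1)) (hKa 2)) (hKa 3),
      ← ch_add hτ (hKadd (hKadd (hKadd (hKa 0) (hKa 1)) (hKa 2)) (hKa 3)) (hKa 4)]
    exact ch_ne_one hτ (hKadd (hKadd (hKadd (hKadd (hKa 0) (hKa 1)) (hKa 2)) (hKa 3)) (hKa 4)) d9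
  have hfe := Pool.Agent.Helper40.QC.functional_equation' (ch_ne_one hτ (hKa 0) (hdeg 0))
    (ch_ne_one hτ (hKa 1) (hdeg 1)) (ch_ne_one hτ (hKa 2) (hdeg 2)) (ch_ne_one hτ (hKa 3) (hdeg 3))
    (ch_ne_one hτ (hKa 4) (hdeg 4)) (three (hKa 0) (hKa 1) (hKa 4) d5)
    (three (hKa 2) (hKa 3) (hKa 4) d6) (three (hKa 0) (hKa 2) (hKa 4) d7)
    (three (hKa 1) (hKa 3) (hKa 4) d8) five hψ
  rw [h1, h2'] at hfe
  exact ⟨K, inferInstance, inferInstance, τ, ψ, hK, hτ, hψ, hc, h1, hfe⟩

/-- the case of an odd valuation -/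
theorem case_place (H : QuadrilateralH2 p n L V) (hpn : p.Coprime n) {a : Fin 5 → ZMod n}
    (h2 : ∃ i, 2 * a i ≠ 0) (h : OddPlace p a) : H.W a ≤ ⨆ c, H.Fr.eigenspace c := by
  obtain ⟨m, hm0, ha, g, hodd⟩ := h
  refine part H hm0 h2 ha ?_
  intro hne hdeg x c hx hx'
  obtain ⟨K, _, _, τ, ψ, hK, hτ, hψ, hc, h1, hfe⟩ := block H hm0 ha hne hdeg hx hx'
  apply sq_ne_orbit hpn hm0 hK hτ hψ a ha g hodd
  rw [h1]
  set T := ten (ch τ (a 0)) (ch τ (a 1)) (ch τ (a 2)) (ch τ (a 3)) (ch τ (a 4)) ψ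
  calc T * (2 * c) ^ 2 = T * (2 * c) * (2 * c) := by ring
    _ = (Fintype.card K : L) ^ 5 * (2 * ((Fintype.card K : L) ^ 2 / c)) * (2 * c) := by rw [hfe]
    _ = 4 * (Fintype.card K : L) ^ 7 := by
      field_simp
      ring

/-- the case of a valuation different from one half -/
theorem case_half (H : QuadrilateralH2 p n L V) (hpn : p.Coprime n) {a : Fin 5 → ZMod n}
    (h2 : ∃ i, 2 * a i ≠ 0) (h : Pool.Agent.Helper41.AC.NotHalf p a) {N : ℕ} (hN : 0 < N) :
    H.W a ≤ Pool.Agent.Helper41.AC.fit (H.Fr ^ N - (p : L) ^ N • 1) := by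
  obtain ⟨m, hm, ha, g, hg⟩ := h.mul
  have hp0 : (p : L) ≠ 0 := Nat.cast_ne_zero.2 hp.out.ne_zero
  have ha' : ∀ i, (p : ZMod n) ^ (m * N) * a i = a i := by
    intro i
    clear hg
    induction N with
    | zero => omega
    | succ N ih =>
      rcases Nat.eq_zero_or_pos N with h0 | h0
      · rw [h0, zero_add, mul_one, ha]
      · rw [mul_add, mul_one, pow_add, mul_assoc, ha, ih h0]
  refine Pool.Agent.Helper41.AC.le_fit hN hm (pow_ne_zero N hp0) (stable_of H ha') ?_
  intro x hx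
  by_contra hx'
  have h2' := two_le hx hx'
  have hne : H.W a ≠ ⊥ := by
    intro h0
    rw [h0, finrank_bot] at h2'
    omega
  have hdeg : ∀ i, residues a i ≠ 0 := by
    by_contra hdeg
    push Not at hdeg
    have := H.finrank_le_one a hdeg h2
    omega
  obtain ⟨K, _, _, τ, ψ, hK, hτ, hψ, hc, -, hfe⟩ :=
    block H (Nat.mul_pos hm hN) ha' hne hdeg hx hx'
  have hcK : ((p : L) ^ N) ^ m = (Fintype.card K : L) := by
    rw [hK, ← pow_mul, mul_comm N m]
    push_cast
    rfl
  rw [hcK] at hfe hc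
  refine Pool.Agent.Helper41.AC.ten_ne_orbit hpn (Nat.mul_pos hm hN) hK hτ hψ a ha' g (hg N hN) ?_
  have h3 : (Fintype.card K : L) ^ 2 / (Fintype.card K : L) = Fintype.card K := by
    field_simp
  rw [h3] at hfe
  exact mul_right_cancel₀ (mul_ne_zero two_ne_zero hc) hfe

end

/-- the restriction to a subspace of the span of the eigenvectors -/
theorem restrict_semisimple {L V : Type} [Field L] [IsAlgClosed L] [AddCommGroup V] [Module L V]
    [FiniteDimensional L V] {f : End L V} {U : Submodule L V} (h : ∀ x ∈ U, f x ∈ U)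
    (hU : U ≤ ⨆ c, f.eigenspace c) : End.IsSemisimple (f.restrict h) := by
  apply semisimple_of_iSup
  have h1 := Submodule.inf_iSup_genEigenspace h 1
  have h2 : U ≤ (⨆ c, End.eigenspace (f.restrict h) c).map U.subtype := by
    calc U = U ⊓ ⨆ c, f.eigenspace c := (inf_eq_left.2 hU).symm
      _ = ⨆ c, U ⊓ f.eigenspace c := h1
      _ ≤ _ := by
        refine iSup_le fun c => ?_
        rintro x ⟨hx, hx'⟩
        refine ⟨⟨x, hx⟩, ?_, rfl⟩
        refine Submodule.mem_iSup_of_mem c ?_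
        rw [End.mem_eigenspace_iff]
        exact Subtype.ext (End.mem_eigenspace_iff.1 hx')
  rw [eq_top_iff]
  rintro ⟨x, hx⟩ -
  obtain ⟨y, hy, hyx⟩ := h2 hx
  have : y = ⟨x, hx⟩ := Subtype.ext hyx
  rwa [← this]

/-- the points which are not exceptional -/
theorem always {r k s t : ℕ} [hr : Fact r.Prime] [NeZero k] (hr2 : r ≠ 2)
    (hst : r - 1 = 2 ^ (s + 1) * t) (ht : Odd t) {g : (ZMod r)ˣ} (hg : orderOf g = r - 1)
    {u : Fin 5 → ZMod (r ^ k)}
    (h : ¬ ((∀ i, Pool.Agent.Helper73.QC.residues (Pool.Agent.Helper41.AC.red r k u) i ≠ 0) →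
      Pool.Agent.Helper41.AC.Exceptional g (2 ^ s) (Pool.Agent.Helper41.AC.red r k u))) :
    AlwaysSemisimple (r ^ k) u := by
  intro p L V _ _ _ _ _ _ H hp hpn
  push Not at h
  have : Fact p.Prime := ⟨hp⟩
  have hn : r ^ k ≠ 0 := pow_ne_zero _ hr.out.ne_zero
  have : NeZero (r ^ k) := ⟨hn⟩
  have hst' : ∀ x ∈ cyclicPart H u, H.Fr x ∈ cyclicPart H u := by
    have h1 : cyclicPart H u ≤ (cyclicPart H u).comap H.Fr := by
      refine sup_le (fun x hx => ?_) (iSup_le fun j x hx => ?_)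
      · exact Submodule.mem_sup_left (H.N_stable x hx)
      · refine Submodule.mem_sup_right (Submodule.mem_iSup_of_mem ((p : ZMod (r ^ k)) * j) ?_)
        have h2 := H.stable _ x hx
        simp only [← mul_assoc] at h2
        exact h2
    exact h1
  refine ⟨hst', restrict_semisimple hst' ?_⟩
  refine sup_le (le_of_semisimple H.N_stable H.N_semisimple) (iSup_le fun j => ?_)
  by_cases h2 : ∃ i, 2 * (fun i => j * u i) i ≠ 0
  swap
  · push Not at h2
    exact case_two H hp hpn h2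
  rcases Pool.Agent.Helper41.AC.good_multiple hr2 hst ht hg h.1 h.2 j with h3 | h3
  · exfalso
    obtain ⟨i, hi⟩ := h2
    exact hi (by
      change 2 * (j * u i) = 0
      rw [h3 i, mul_zero])
  rcases good_imp hpn hn h3 with h4 | h4
  · exact case_self H h2 h4
  · exact case_place H hpn h2 h4

/-- the points which are not balanced -/
theorem always_tate {r k s t : ℕ} [hr : Fact r.Prime] [NeZero k] (hr2 : r ≠ 2)
    (hst : r - 1 = 2 ^ (s + 1) * t) (ht : Odd t) {g : (ZMod r)ˣ} (hg : orderOf g = r - 1)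
    {u : Fin 5 → ZMod (r ^ k)}
    (h : ¬ ((∀ i, Pool.Agent.Helper73.QC.residues (Pool.Agent.Helper41.AC.red r k u) i ≠ 0) →
      Pool.Agent.Helper41.AC.Balanced g (2 ^ s) (Pool.Agent.Helper41.AC.red r k u))) :
    AlwaysTateSemisimple (r ^ k) u := by
  intro p L V _ _ _ _ _ _ H hp hpn m hm x hx hxx
  push Not at h
  have : Fact p.Prime := ⟨hp⟩
  have hn : r ^ k ≠ 0 := pow_ne_zero _ hr.out.ne_zero
  have : NeZero (r ^ k) := ⟨hn⟩
  have heig : (⨆ c, H.Fr.eigenspace c) ≤
      Pool.Agent.Helper41.AC.fit (H.Fr ^ m - (p : L) ^ m • 1) :=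
    iSup_le fun c => Pool.Agent.Helper41.AC.eigenspace_le_fit H.Fr c _ m
  have hle : cyclicPart H u ≤ Pool.Agent.Helper41.AC.fit (H.Fr ^ m - (p : L) ^ m • 1) := by
    refine sup_le ((le_of_semisimple H.N_stable H.N_semisimple).trans heig)
      (iSup_le fun j => ?_)
    by_cases h2 : ∃ i, 2 * (fun i => j * u i) i ≠ 0
    swap
    · push Not at h2
      exact (case_two H hp hpn h2).trans heig
    rcases Pool.Agent.Helper41.AC.bal_multiple hr2 hst ht hg h.1 h.2 j with h3 | h3
    · exfalso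
      obtain ⟨i, hi⟩ := h2
      exact hi (by
        change 2 * (j * u i) = 0
        rw [h3 i, mul_zero])
    rcases Pool.Agent.Helper41.AC.bal_imp hpn hn h3 with h4 | h4
    · exact (case_self H h2 h4).trans heig
    · exact case_half H hpn h2 h4 hm
  rw [pow_two, End.mul_apply] at hxx
  have h5 := Pool.Agent.Helper41.AC.fit_sq (hle hx) hxx
  rw [LinearMap.sub_apply, LinearMap.smul_apply, End.one_apply] at h5
  exact sub_eq_zero.1 h5

/-- **Main theorem.** -/
theorem result :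
    (∀ s : ℕ, (evenCount (2 ^ s) : ℝ) / (2 ^ s) ^ 10 ≤ 945 / 32 ^ s ∧
      (balancedCount (2 ^ s) : ℝ) / (2 ^ (s + 1)) ^ 10 ≤ 945 / 32 ^ (s + 1)) ∧
    ∀ r k s : ℕ, r.Prime → 0 < k → 2 ^ (s + 1) ∣ r - 1 → ¬ 2 ^ (s + 2) ∣ r - 1 →
      (Nat.card {u : Fin 5 → ZMod (r ^ k) // ¬ AlwaysSemisimple (r ^ k) u} : ℝ) ≤
        (min (evenCount (2 ^ s) / (2 ^ s) ^ 10 / 2 + 32 ^ s * Real.sqrt (2 / r) : ℝ) (9 / 2 ^ s) +
          10 / r) * (r ^ k) ^ 5 ∧
      (Nat.card {u : Fin 5 → ZMod (r ^ k) // ¬ AlwaysTateSemisimple (r ^ k) u} : ℝ) ≤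
        (min (balancedCount (2 ^ s) / (2 ^ (s + 1)) ^ 10 + 32 ^ (s + 1) * Real.sqrt (2 / r) : ℝ)
          (9 / 2 ^ (s + 1)) + 10 / r) * (r ^ k) ^ 5 := by
  classical
  have h32 : ∀ s : ℕ, (32 : ℝ) ^ s = (2 ^ s) ^ 5 := fun s => by
    rw [← pow_mul, mul_comm, pow_mul]
    norm_num
  refine ⟨fun s => ⟨?_, ?_⟩, fun r k s hr hk h1 h2 => ?_⟩
  · have h1 : (evenCount (2 ^ s) : ℝ) ≤ 945 * (2 ^ s) ^ 5 := by
      exact_mod_cast Pool.Agent.Helper41.AC.evenCount_le (2 ^ s)
    rw [h32, div_le_div_iff₀ (by positivity) (by positivity)]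
    calc (evenCount (2 ^ s) : ℝ) * (2 ^ s) ^ 5 ≤ 945 * (2 ^ s) ^ 5 * (2 ^ s) ^ 5 := by gcongr
      _ = _ := by ring
  · have h1 : (balancedCount (2 ^ s) : ℝ) ≤ 945 * (2 ^ (s + 1)) ^ 5 := by
      have h3 : balancedCount (2 ^ s) ≤ 945 * (2 * 2 ^ s) ^ 5 :=
        Pool.Agent.Helper41.AC.balancedCount_le (2 ^ s)
      rw [← pow_succ'] at h3
      exact_mod_cast h3
    rw [h32, div_le_div_iff₀ (by positivity) (by positivity)]
    calc (balancedCount (2 ^ s) : ℝ) * (2 ^ (s + 1)) ^ 5 ≤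
          945 * (2 ^ (s + 1)) ^ 5 * (2 ^ (s + 1)) ^ 5 := by gcongr
      _ = _ := by ring
  have : Fact r.Prime := ⟨hr⟩
  have : NeZero k := ⟨hk.ne'⟩
  obtain ⟨t, hst⟩ := h1
  have ht : Odd t := by
    rw [← Nat.not_even_iff_odd]
    rintro ⟨y, hy⟩
    apply h2
    refine ⟨y, ?_⟩
    rw [hst, hy, pow_succ 2 (s + 1)]
    ring
  have hr2 : r ≠ 2 := by
    rintro rfl
    have h3 : 2 ∣ 2 - 1 := ⟨2 ^ s * t, by rw [hst, pow_succ]; ring⟩
    omega
  obtain ⟨g, hg⟩ := IsCyclic.exists_generator (α := (ZMod r)ˣ)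
  have hg' : orderOf g = r - 1 := by
    rw [orderOf_eq_card_of_forall_mem_zpowers hg, Nat.card_eq_fintype_card, ZMod.card_units]
  have hgc : orderOf g = Fintype.card (ZMod r) - 1 := by rw [hg', ZMod.card]
  have hq : Fintype.card (ZMod r) - 1 = 2 * 2 ^ s * t := by
    rw [ZMod.card, hst, pow_succ]
    ring
  have hr0 : (0 : ℝ) ≤ (r : ℝ) ^ 5 := by positivity
  have hm : 0 < 2 ^ s := by positivity
  constructor
  · refine Pool.Agent.Helper41.AC.transfer (P := fun v : Fin 5 → ZMod r =>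
      (∀ i, Pool.Agent.Helper73.QC.residues v i ≠ 0) →
        Pool.Agent.Helper41.AC.Exceptional g (2 ^ s) v) (fun u hu => ?_) ?_
    · by_contra h3
      exact hu (always hr2 hst ht hg' h3)
    have hbad := Pool.Agent.Helper41.AC.count_bad hm hgc hq
    have hbad' := Pool.Agent.Helper41.AC.count_simple hm hgc hq
    rw [ZMod.card] at hbad hbad'
    rw [← min_add_add_right, min_mul_of_nonneg _ _ hr0]
    refine le_min (hbad.trans (le_of_eq ?_)) (hbad'.trans (le_of_eq ?_))
    · rw [h32, div_div, mul_comm _ (2 : ℝ)]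
      push_cast
      rfl
    · push_cast
      rfl
  · refine Pool.Agent.Helper41.AC.transfer (P := fun v : Fin 5 → ZMod r =>
      (∀ i, Pool.Agent.Helper73.QC.residues v i ≠ 0) →
        Pool.Agent.Helper41.AC.Balanced g (2 ^ s) v) (fun u hu => ?_) ?_
    · by_contra h3
      exact hu (always_tate hr2 hst ht hg' h3)
    have hbad := Pool.Agent.Helper41.AC.count_bal_bad hm hgc hq
    have hbad' := Pool.Agent.Helper41.AC.count_bal_simple hm hgc hq
    rw [ZMod.card] at hbad hbad'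
    rw [← min_add_add_right, min_mul_of_nonneg _ _ hr0]
    have h2s : (2 : ℝ) ^ (s + 1) = 2 * ((2 ^ s : ℕ) : ℝ) := by
      rw [pow_succ']
      push_cast
      rfl
    refine le_min (hbad.trans (le_of_eq ?_)) (hbad'.trans (le_of_eq ?_))
    · rw [h32, h2s]
      rfl
    · rw [h2s]

end Pool.Agent.Results.MP_1fe969_ag.AlmostAllCovers
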