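import Pool.Agent.Helper40.PC.Dual
import Pool.Agent.Helper41.ST.Char
import Pool.Agent.Helper41.ST.Closed
import Pool.Agent.Helper41.ST.Tower
import Pool.Agent.Helper41.ST.Defs
import Pool.Agent.Helper41.ST.Levels

/-!
# Level structures modulo `ℓ` and towers of covers of order prime to `ℓ`

Let `G` be the additive or the multiplicative group over the finite field `k`, with the coordinate
`t`, and let `Y → G` be a surface whose fibres have a constant number of points modulo the prime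
`ℓ` outside a finite set `S` of closed points of `G`, for instance
* the complement of the sections `x = A_a(t)`, which collide over `S`,
* an elliptic surface with a section of order `ℓ = 2, 3, 5, 7` and with the bad fibres over `S`.

`TowerH2 k L V ι I ℓ e` lists properties of the geometric Frobenius on `V = H²(X̄, L)`,
`L = \bar ℚ_ℓ'`, for a smooth projective model `X` of the pull-back under an isogeny `π : G → G` of
a surface `X₁`: an abelian cover of `Y` of exponent `ℓ ^ e`, for instance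
`y ^ (ℓ ^ e) = ∏ (x - A_a(t))` in the first case, or `Y` itself in the second case.  The parts
`W i` belong to the pairs `(ρ, χ)` of a character of the group of the cover of `Y` and of a character
`χ` of the kernel of `π`.  By Lang's theorem `χ` is a character of the group of the points of `G`
over the field `K₀` of degree `m` over which `ρ` and `χ` are defined, and its trace function at the
points over an extension `K` is the composition with the norm or the trace of `K` over `K₀`.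
The subspace `N` is the span of algebraic classes and, if `χ = 1` is left out, of `H²(X̄₁, L)`; if
`S` is one closed point of the multiplicative group, `χ = 1` may be included (then the second
cohomology of the fibres contributes a multiple of `|K| - 1` to the sum over the points).

The theorem says that modulo `ℓ` the eigenvalues of `Fr ^ m` on `W i` are the roots of the
polynomials `X ^ e - χ(ϖ)` for the closed points `ϖ` in `S` over `K₀` of degree `e`: so they are
simple if these polynomials are separable and coprime.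
-/

open Module Polynomial

namespace Pool.Agent.Results.MP_1fe969_ag.LevelTowers

open Pool.Agent.Helper73.KT Pool.Agent.Helper40.PC Pool.Agent.Helper41.ST

/-- Frobenius on `V = H²(X̄, L)` and its parts -/
structure TowerH2 (k L V ι : Type) [Field k] [Field L] [AddCommGroup V] [Module L V]
    {n : ℕ} (I : Set (MvPolynomial (Fin (n + 1)) k)) (ℓ e : ℕ) where
  /-- the geometric Frobenius -/
  Fr : End L V
  injective : Function.Injective Fr
  integral : ∀ a : L, Fr.HasEigenvalue a → IsIntegral ℤ a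
  /-- a subspace on which `Fr` is known to be semisimple -/
  N : Submodule L V
  N_stable : ∀ x ∈ N, Fr x ∈ N
  N_semisimple : End.IsSemisimple (Fr.restrict N_stable)
  /-- the parts of weight two for the pairs of characters -/
  W : ι → Submodule L V
  span : N ⊔ ⨆ i, W i = ⊤
  /-- the degree of the field over which the characters are defined -/
  m : ι → ℕ
  m_pos : ∀ i, 0 < m i
  m_ord : ∀ i, ord k ℓ ∣ m i
  stable : ∀ i, ∀ x ∈ W i, (Fr ^ m i) x ∈ W i
  /-- the eigenvalues on the parts of weights less than two -/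
  low : ι → Multiset L
  low_integral : ∀ i, ∀ b ∈ low i, IsIntegral ℤ b
  /-- the trace function of the character of the group of the points over the field `K₀` of
  degree `m` -/
  w : ι → ∀ (K₀ : Type) [Field K₀] [Algebra k K₀] (K : Type) [Field K] [Algebra K₀ K], K → L
  trace_formula : ∀ i (K₀ K : Type) [Field K₀] [Field K] [Algebra k K₀] [Algebra k K]
    [Algebra K₀ K] [IsScalarTower k K₀ K], finrank k K₀ = m i → 0 < finrank K₀ K →
      ∃ (θ : (Fin (n + 1) → K) → L) (u : ℤ), (∀ P, θ P ^ ℓ ^ e = 1) ∧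
        LinearMap.trace L (W i) (((Fr ^ m i).restrict (stable i)) ^ finrank K₀ K) +
          ((low i).map (fun b => b ^ finrank K₀ K)).sum =
            (∑ᶠ P ∈ points I K, θ P * w i K₀ K (P 0)) + u * ((Nat.card K : ℕ) - 1)

variable {k L V ι : Type} [Field k] [Finite k] [Field L] [CharZero L] [IsAlgClosed L]
    [AddCommGroup V] [Module L V] [FiniteDimensional L V]

/-- The characters separate the closed points of `S`: modulo `ℓ` the polynomials `X ^ e - w(ϖ)`
for the closed points `ϖ` over `K₀` of degree `e` are separable and coprime. -/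
def Separated {n : ℕ} {I : Set (MvPolynomial (Fin (n + 1)) k)} {ℓ e : ℕ} (G : Gp)
    (H : TowerH2 k L V ι I ℓ e) (S : Finset k[X]) : Prop :=
  ∀ i (K₀ : Type) [Field K₀] [Algebra k K₀], finrank k K₀ = H.m i →
    ∀ ϖ ∈ factorsOver S K₀, ¬ ℓ ∣ ϖ.natDegree ∧ ∀ ϖ' ∈ factorsOver S K₀, ϖ ≠ ϖ' →
      H.w i K₀ K₀ (G.val ϖ) ^ (ϖ'.natDegree / ϖ.natDegree.gcd ϖ'.natDegree) ≠
        H.w i K₀ K₀ (G.val ϖ') ^ (ϖ.natDegree / ϖ.natDegree.gcd ϖ'.natDegree)

theorem main {G : Gp} {ℓ e n : ℕ} [Fact ℓ.Prime] (hℓ : (ℓ : k) ≠ 0)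
    {I : Set (MvPolynomial (Fin (n + 1)) k)} {S : Finset k[X]} (hL : Level G ℓ I S)
    (H : TowerH2 k L V ι I ℓ e)
    (hχ : ∀ i (K₀ : Type) [Field K₀] [Algebra k K₀], finrank k K₀ = H.m i →
      G.IsChar ℓ (H.w i K₀))
    (hsep : Separated G H S)
    (dim : ∀ i, finrank L (H.W i) + Multiset.card (H.low i) ≤ ∑ π ∈ S, π.natDegree) :
    H.Fr.IsSemisimple := by
  classical
  have hℓp : ℓ.Prime := Fact.out
  obtain ⟨p, hpc⟩ := CharP.exists k
  have hp : Fact p.Prime := ⟨CharP.char_is_prime k p⟩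
  have hℓp' : ¬ ℓ ∣ p := by
    intro h
    rw [Nat.prime_dvd_prime_iff_eq hℓp hp.out] at h
    apply hℓ
    rw [h]
    exact CharP.cast_eq_zero k p
  -- a residue field of characteristic `ℓ`
  obtain ⟨κ, _, _, _, ψ, -⟩ := exists_res_closed (L := L) (r := ℓ)
    (x := (1 : integralClosure ℤ L)) (by
      intro N h
      apply not_integral_inv (L := L) hℓp
      simpa using h)
  have hres0 : res ψ (0 : L) = 0 := by simpa using res_natCast ψ 0
  have hres1 : res ψ (1 : L) = 1 := by simpa using res_natCast ψ 1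
  obtain ⟨hSG, δ, hδ, hcount⟩ := hL
  have hSi : ∀ π ∈ S, Irreducible π ∧ π.Monic := fun π hπ => (hSG π hπ).1
  refine semisimple_of_parts H.injective H.N_stable H.N_semisimple H.span
    (n := H.m) H.m_pos H.stable ?_
  intro i a
  set T : End L (H.W i) := (H.Fr ^ H.m i).restrict (H.stable i) with hT
  obtain ⟨K₀, _, _, hfin⟩ := exists_field k (H.m_pos i)
  have hK₀ : Module.Finite k K₀ := Module.finite_of_finrank_pos (by rw [hfin]; exact H.m_pos i)
  have : Finite K₀ := Module.finite_of_finite k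
  have hch : CharP K₀ p := charP_of_injective_algebraMap (algebraMap k K₀).injective p
  have hw := hχ i K₀ hfin
  have hint : ∀ (K : Type) [Field K] [Algebra K₀ K] (t : K), IsIntegral ℤ (H.w i K₀ K t) :=
    fun K _ _ t => value_integral (p := p) hw K t
  -- the closed points over `K₀`
  set F := factorsOver S K₀ with hF
  have hFi : ∀ ϖ ∈ F, Irreducible ϖ ∧ ϖ.Monic := fun ϖ hϖ => by
    obtain ⟨h1, h2, -⟩ := (mem_over fun π hπ => (hSi π hπ).2).1 hϖ
    exact ⟨h1, h2⟩
  have hFG : ∀ ϖ ∈ F, G.val ϖ ∈ G.pts K₀ := fun ϖ hϖ =>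
    val_mem hSi (fun π hπ => (hSG π hπ).2) hϖ
  have hroot : ∀ ϖ ∈ F, ∃ N : ℕ, ¬ ℓ ∣ N ∧ H.w i K₀ K₀ (G.val ϖ) ^ N = 1 :=
    fun ϖ hϖ => value_root (p := p) hℓp' hw (hFG ϖ hϖ)
  let ν : K₀[X] → κ := fun ϖ => res ψ (H.w i K₀ K₀ (G.val ϖ))
  have hν0 : ∀ ϖ ∈ F, ν ϖ ≠ 0 := by
    intro ϖ hϖ h
    obtain ⟨N, hN, h1⟩ := hroot ϖ hϖ
    have h2 := congrArg (res ψ) h1
    rw [res_pow ψ (hint K₀ _)] at h2
    have h3 : N ≠ 0 := by
      rintro rfl
      exact hN (dvd_zero _)
    rw [hres1] at h2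
    change ν ϖ ^ N = 1 at h2
    rw [h, zero_pow h3] at h2
    exact zero_ne_one h2
  have hdeg : ∀ ϖ ∈ F, (ϖ.natDegree : κ) ≠ 0 := by
    intro ϖ hϖ h
    rw [CharP.cast_eq_zero_iff κ ℓ] at h
    exact (hsep i K₀ hfin ϖ hϖ).1 h
  let R : K₀[X] → Finset κ := fun ϖ => rts ϖ.natDegree (ν ϖ)
  have hdisj : (F : Set K₀[X]).PairwiseDisjoint R := by
    intro ϖ hϖ ϖ' hϖ' hne
    rw [Function.onFun, Finset.disjoint_left]
    intro z hz hz'
    have he : 0 < ϖ.natDegree := (hFi ϖ hϖ).1.natDegree_pos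
    have he' : 0 < ϖ'.natDegree := (hFi ϖ' hϖ').1.natDegree_pos
    change z ∈ rts ϖ.natDegree (ν ϖ) at hz
    change z ∈ rts ϖ'.natDegree (ν ϖ') at hz'
    rw [mem_rts he] at hz
    rw [mem_rts he'] at hz'
    obtain ⟨N, hN, h1⟩ := hroot ϖ hϖ
    obtain ⟨N', hN', h1'⟩ := hroot ϖ' hϖ'
    refine (hsep i K₀ hfin ϖ hϖ).2 ϖ' hϖ' hne ?_
    refine res_inj ψ (m := N) (n := N') hN hN' ?_ ?_ ?_
    · rw [← pow_mul, mul_comm, pow_mul, h1, one_pow]
    · rw [← pow_mul, mul_comm, pow_mul, h1', one_pow]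
    · rw [res_pow ψ (hint K₀ _), res_pow ψ (hint K₀ _)]
      change ν ϖ ^ _ = ν ϖ' ^ _
      rw [← hz, ← hz', ← pow_mul, ← pow_mul]
      congr 1
      rw [← Nat.mul_div_assoc _ (Nat.gcd_dvd_right _ _), ← Nat.mul_div_assoc _
        (Nat.gcd_dvd_left _ _), mul_comm]
  let S' : Finset κ := F.biUnion R
  have hS' : S'.card = ∑ π ∈ S, π.natDegree := by
    rw [Finset.card_biUnion fun ϖ hϖ ϖ' hϖ' hne => hdisj hϖ hϖ' hne,
      ← sum_degree (K₀ := K₀) hSi]
    exact Finset.sum_congr rfl fun ϖ hϖ => card_rts (hdeg ϖ hϖ) (hν0 ϖ hϖ)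
  have hS0 : ∀ x ∈ S', x ≠ 0 := by
    intro x hx h
    obtain ⟨ϖ, hϖ, hxR⟩ := Finset.mem_biUnion.1 hx
    have he : 0 < ϖ.natDegree := (hFi ϖ hϖ).1.natDegree_pos
    change x ∈ rts ϖ.natDegree (ν ϖ) at hxR
    rw [mem_rts he, h, zero_pow he.ne'] at hxR
    exact hν0 ϖ hϖ hxR.symm
  -- the weights
  let D : K₀[X] → κ := fun ϖ => ZMod.castHom (dvd_refl ℓ) κ (wgt S δ ϖ)
  have hD0 : ∀ ϖ ∈ F, D ϖ ≠ 0 := by
    intro ϖ hϖ h
    obtain ⟨π, hπ, h1⟩ := wgt_eq hSi δ hϖ
    apply hδ π hπ
    rw [← h1]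
    exact (ZMod.castHom (dvd_refl ℓ) κ).injective (by rw [map_zero]; exact h)
  let wt : κ → κ := fun x => ∑ ϖ ∈ F, if x ∈ R ϖ then D ϖ else 0
  have hwt : ∀ ϖ ∈ F, ∀ x ∈ R ϖ, wt x = D ϖ := by
    intro ϖ hϖ x hx
    change (∑ ϖ' ∈ F, if x ∈ R ϖ' then D ϖ' else 0) = _
    rw [Finset.sum_eq_single ϖ]
    · rw [if_pos hx]
    · intro ϖ' hϖ' hne
      rw [if_neg]
      intro hx'
      exact Finset.disjoint_left.1 (hdisj hϖ hϖ' hne.symm) hx hx'
    · intro h
      exact absurd hϖ h
  -- the residual power sums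
  have hps : ∀ j : ℕ, 0 < j → ∑ c ∈ eigs T, (mult T c : κ) * res ψ c ^ j +
      ((H.low i).map (fun b => res ψ b ^ j)).sum = ∑ x ∈ S', wt x * x ^ j := by
    intro j hj
    obtain ⟨K, _, _, hK⟩ := exists_field K₀ hj
    let : Algebra k K := ((algebraMap K₀ K).comp (algebraMap k K₀)).toAlgebra
    have : IsScalarTower k K₀ K := IsScalarTower.of_algebraMap_eq' rfl
    have hKf : Module.Finite K₀ K := Module.finite_of_finrank_pos (by rw [hK]; exact hj)
    have : Finite K := Module.finite_of_finite K₀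
    have := Fintype.ofFinite K
    have hdvd : ord k ℓ ∣ finrank k K := by
      rw [← Module.finrank_mul_finrank k K₀ K, hfin]
      exact (H.m_ord i).mul_right _
    have hcard1 : (Nat.card K : ZMod ℓ) = 1 := by
      rw [Nat.card_eq_fintype_card]
      exact card_eq_one (k := k) hdvd
    have hcard2 : ((Nat.card K : ℕ) : κ) = 1 := by
      rw [Nat.card_eq_fintype_card]
      exact card_eq_one (k := k) hdvd
    obtain ⟨c, hc⟩ := hcount K hcard1
    obtain ⟨θ, u, hθ, htr⟩ := H.trace_formula i K₀ K hfin (by rw [hK]; exact hj)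
    rw [hK] at htr
    rw [finsum_mem_def, finsum_eq_sum_of_fintype] at htr
    have hterm : ∀ P : Fin (n + 1) → K, IsIntegral ℤ
        ((points I K).indicator (fun P => θ P * H.w i K₀ K (P 0)) P) ∧
        res ψ ((points I K).indicator (fun P => θ P * H.w i K₀ K (P 0)) P) =
          (points I K).indicator (fun P => res ψ (H.w i K₀ K (P 0))) P := by
      intro P
      by_cases hP : P ∈ points I K
      · rw [Set.indicator_of_mem hP, Set.indicator_of_mem hP]
        refine ⟨(int_root (hθ P)).mul (hint K _), ?_⟩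
        rw [res_mul ψ (int_root (hθ P)) (hint K _), res_root ψ (hθ P), one_mul]
      · rw [Set.indicator_of_notMem hP, Set.indicator_of_notMem hP]
        exact ⟨isIntegral_zero, hres0⟩
    have hI : IsIntegral ℤ
        (∑ P, (points I K).indicator (fun P => θ P * H.w i K₀ K (P 0)) P) :=
      IsIntegral.sum _ fun P _ => (hterm P).1
    have hui : IsIntegral ℤ (u : L) := isIntegral_algebraMap (R := ℤ) (x := u)
    have hni : IsIntegral ℤ ((Nat.card K : ℕ) : L) := int_nat _
    have hci : IsIntegral ℤ ((Nat.card K : ℕ) - 1 : L) := hni.sub isIntegral_one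
    have hcr : res ψ ((Nat.card K : ℕ) - 1 : L) = 0 := by
      rw [res_sub ψ hni isIntegral_one, res_natCast, hcard2, hres1, sub_self]
    rw [res_trace ψ (eigs_integral H.integral (H.stable i)) (H.low_integral i) j
      (hI.add (hui.mul hci)) htr, res_add ψ hI (hui.mul hci), res_mul ψ hui hci, hcr, mul_zero,
      add_zero, res_sum ψ _ _ (fun P _ => (hterm P).1),
      Finset.sum_congr rfl fun P _ => (hterm P).2]
    -- the sum over the points as a sum over `t`
    have h1 : ∑ P : Fin (n + 1) → K,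
        (points I K).indicator (fun P => res ψ (H.w i K₀ K (P 0))) P =
          ∑ t : K, (Nat.card {P : points I K // P.1 0 = t} : κ) * res ψ (H.w i K₀ K t) := by
      rw [← Finset.sum_fiberwise Finset.univ (fun P : Fin (n + 1) → K => P 0)]
      refine Finset.sum_congr rfl fun t _ => ?_
      rw [Finset.sum_congr rfl (g := fun P : Fin (n + 1) → K =>
        (points I K).indicator (fun _ => res ψ (H.w i K₀ K t)) P) (by
          intro P hP
          rw [Finset.mem_filter] at hP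
          simp only [Set.indicator_apply, hP.2])]
      simp only [Set.indicator_apply]
      rw [← Finset.sum_filter, Finset.sum_const, Finset.filter_filter, nsmul_eq_mul]
      congr 2
      rw [Nat.card_eq_fintype_card, ← Fintype.card_coe]
      refine Fintype.card_congr ⟨fun P => ⟨⟨P.1, (Finset.mem_filter.1 P.2).2.2⟩,
        (Finset.mem_filter.1 P.2).2.1⟩, fun P => ⟨P.1.1, Finset.mem_filter.2
        ⟨Finset.mem_univ _, P.2, P.1.2⟩⟩, fun _ => rfl, fun _ => rfl⟩
    have h2 : ∀ t : K, (Nat.card {P : points I K // P.1 0 = t} : κ) * res ψ (H.w i K₀ K t) =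
        ZMod.castHom (dvd_refl ℓ) κ c * res ψ (H.w i K₀ K t) +
          ∑ ϖ ∈ F, D ϖ * if aeval t ϖ = 0 then res ψ (H.w i K₀ K t) else 0 := by
      intro t
      by_cases ht : t ∈ G.pts K
      · have h3 := congrArg (ZMod.castHom (dvd_refl ℓ) κ) (hc t ht)
        rw [map_natCast, map_add, sum_wgt (K₀ := K₀) hSi δ t, map_sum] at h3
        rw [h3, add_mul, Finset.sum_mul]
        congr 1
        refine Finset.sum_congr rfl fun ϖ _ => ?_
        split_ifs
        · rfl
        · rw [map_zero, zero_mul, mul_zero]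
      · rw [eq_zero hw ht, hres0]
        simp
    rw [h1, Finset.sum_congr rfl fun t _ => h2 t, Finset.sum_add_distrib, ← Finset.mul_sum,
      ← res_sum ψ _ _ (fun t _ => hint K t), sum_zero ψ hw K hcard1, mul_zero, zero_add,
      Finset.sum_comm, Finset.sum_biUnion fun ϖ hϖ ϖ' hϖ' hne => hdisj hϖ hϖ' hne]
    refine Finset.sum_congr rfl fun ϖ hϖ => ?_
    rw [← Finset.mul_sum, closed_sum (p := p) ψ hw (hFi ϖ hϖ).1 (hFi ϖ hϖ).2 (hFG ϖ hϖ)
      (hdeg ϖ hϖ) (hν0 ϖ hϖ) K, hK, Finset.mul_sum]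
    exact Finset.sum_congr rfl fun x hx => by rw [hwt ϖ hϖ x hx]
  -- conclusion
  have hnres : ∀ x ∈ S', 1 ≤ nres ψ T (H.low i) x := by
    intro x hx
    obtain ⟨ϖ, hϖ, hxR⟩ := Finset.mem_biUnion.1 hx
    have h1 := nres_cast ψ (H.low i) S' wt hps x (hS0 x hx)
    rw [if_pos hx, hwt ϖ hϖ x hxR] at h1
    rw [Nat.one_le_iff_ne_zero]
    intro h2
    rw [h2, Nat.cast_zero] at h1
    exact hD0 ϖ hϖ h1.symm
  have htot := fun Y : Finset κ => nres_total ψ T (H.low i) Y
  have hone : nres ψ T (H.low i) (res ψ a) ≤ 1 := by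
    by_contra hlt
    push Not at hlt
    by_cases ha : res ψ a ∈ S'
    · have h1 : S'.card < ∑ x ∈ S', nres ψ T (H.low i) x := by
        rw [Finset.card_eq_sum_ones]
        exact Finset.sum_lt_sum hnres ⟨_, ha, hlt⟩
      have h2 := htot S'
      have h3 := dim i
      omega
    · have h1 : S'.card ≤ ∑ x ∈ S', nres ψ T (H.low i) x := by
        rw [Finset.card_eq_sum_ones]
        exact Finset.sum_le_sum hnres
      have h2 := htot (insert (res ψ a) S')
      rw [Finset.sum_insert ha] at h2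
      have h3 := dim i
      omega
  exact (mult_le_nres ψ T (H.low i) a).trans hone

/-- The degrees of the closed points of `S` are prime to `ℓ` and to the degrees `m i`. -/
def PrimeTo {n : ℕ} {I : Set (MvPolynomial (Fin (n + 1)) k)} {ℓ e : ℕ}
    (H : TowerH2 k L V ι I ℓ e) (S : Finset k[X]) : Prop :=
  ∀ π ∈ S, ¬ ℓ ∣ π.natDegree ∧ ∀ i, π.natDegree.Coprime (H.m i)

/-- The cover is the pull-back under `t = z ^ p - z`, and the multiples of the differences of the
traces of the closed points of `S` are not of this form. -/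
def ArtinSchreier (p : ℕ) {n : ℕ} {I : Set (MvPolynomial (Fin (n + 1)) k)} {ℓ e : ℕ}
    (H : TowerH2 k L V ι I ℓ e) (S : Finset k[X]) : Prop :=
  (∀ i, ¬ p ∣ H.m i) ∧ (∀ i (K₀ : Type) [Field K₀] [Algebra k K₀], finrank k K₀ = H.m i →
    ∀ x : K₀, H.w i K₀ K₀ (x ^ p - x) = 1) ∧
      ∀ π ∈ S, ∀ π' ∈ S, π ≠ π' → ∀ x : k, x ^ p - x ≠
        (π'.natDegree / π.natDegree.gcd π'.natDegree) • Gp.add.val π -
          (π.natDegree / π.natDegree.gcd π'.natDegree) • Gp.add.val π'

/-- The cover is the pull-back under `t = z ^ (r ^ f)`, for arbitrary `f`, and the quotients of the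
powers of the norms of the closed points of `S` are not `r`-th powers. -/
def Kummer (r : ℕ) {n : ℕ} {I : Set (MvPolynomial (Fin (n + 1)) k)} {ℓ e : ℕ}
    (H : TowerH2 k L V ι I ℓ e) (S : Finset k[X]) : Prop :=
  r.Prime ∧ r ∣ Nat.card k - 1 ∧ (∀ i (K₀ : Type) [Field K₀] [Algebra k K₀],
    finrank k K₀ = H.m i → ∃ f : ℕ, (∀ x : K₀, x ≠ 0 → H.w i K₀ K₀ x ^ r ^ (f + 1) = 1) ∧
      (∃ x : K₀, x ≠ 0 ∧ H.w i K₀ K₀ x ^ r ^ f ≠ 1) ∧
        ¬ r ^ (f + 1) ∣ (Nat.card k ^ H.m i - 1) / (Nat.card k - 1)) ∧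
      ∀ π ∈ S, ∀ π' ∈ S, π ≠ π' → ∀ x : k,
        x ^ r * Gp.mul.val π' ^ (π.natDegree / π.natDegree.gcd π'.natDegree) ≠
          Gp.mul.val π ^ (π'.natDegree / π.natDegree.gcd π'.natDegree)

omit [CharZero L] [IsAlgClosed L] [FiniteDimensional L V] [Finite k] in
theorem separated_of {G : Gp} {ℓ n e : ℕ} {I : Set (MvPolynomial (Fin (n + 1)) k)}
    {S : Finset k[X]} {H : TowerH2 k L V ι I ℓ e} (hS : ∀ π ∈ S, Irreducible π ∧ π.Monic)
    (hp : PrimeTo H S) (h : ∀ i (K₀ : Type) [Field K₀] [Algebra k K₀], finrank k K₀ = H.m i →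
      ∀ π ∈ S, ∀ π' ∈ S, π ≠ π' →
        H.w i K₀ K₀ (algebraMap k K₀ (G.val π)) ^
          (π'.natDegree / π.natDegree.gcd π'.natDegree) ≠
        H.w i K₀ K₀ (algebraMap k K₀ (G.val π')) ^
          (π.natDegree / π.natDegree.gcd π'.natDegree)) : Separated G H S := by
  intro i K₀ _ _ hfin ϖ hϖ
  have hfd : FiniteDimensional k K₀ := Module.finite_of_finrank_pos (by rw [hfin]; exact H.m_pos i)
  have hc : ∀ π ∈ S, π.natDegree.Coprime (finrank k K₀) := fun π hπ => by
    rw [hfin]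
    exact (hp π hπ).2 i
  obtain ⟨π, hπ, rfl⟩ := exists_of_factor hS hc hϖ
  refine ⟨?_, ?_⟩
  · rw [natDegree_map]
    exact (hp π hπ).1
  · intro ϖ' hϖ' hne
    obtain ⟨π', hπ', rfl⟩ := exists_of_factor hS hc hϖ'
    rw [natDegree_map, natDegree_map, val_map, val_map]
    exact h i K₀ hfin π hπ π' hπ' fun h => hne (by rw [h])

omit [Finite k] [CharZero L] [IsAlgClosed L] [FiniteDimensional L V] in
theorem separated_add [Finite k] {p : ℕ} [hp : Fact p.Prime] [CharP k p] {ℓ n e : ℕ}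
    {I : Set (MvPolynomial (Fin (n + 1)) k)} {S : Finset k[X]} {H : TowerH2 k L V ι I ℓ e}
    (hS : ∀ π ∈ S, Irreducible π ∧ π.Monic) (hpr : PrimeTo H S)
    (hχ : ∀ i (K₀ : Type) [Field K₀] [Algebra k K₀], finrank k K₀ = H.m i →
      Gp.add.IsChar ℓ (H.w i K₀)) (h : ArtinSchreier p H S) : Separated .add H S := by
  obtain ⟨hm, h1, hd⟩ := h
  refine separated_of hS hpr ?_
  intro i K₀ _ _ hfin π hπ π' hπ' hne heq
  have hfd : Module.Finite k K₀ := Module.finite_of_finrank_pos (by rw [hfin]; exact H.m_pos i)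
  have : Finite K₀ := Module.finite_of_finite k
  obtain ⟨χ, hχ1, hev⟩ := hχ i K₀ hfin
  have hv : ∀ x : K₀, H.w i K₀ K₀ x = χ x := by
    intro x
    rw [hev, Algebra.trace_self_apply]
  rw [hv, hv, ← AddChar.map_nsmul_eq_pow, ← AddChar.map_nsmul_eq_pow] at heq
  refine add_criterion (p := p) (by rw [hfin]; exact hm i) hχ1 (fun x => ?_)
    (hd π hπ π' hπ' hne) ?_
  · rw [← hv]
    exact h1 i K₀ hfin x
  · rw [map_sub, map_nsmul, map_nsmul, AddChar.map_sub_eq_div, heq, div_self]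
    exact (AddChar.val_isUnit χ _).ne_zero

omit [Finite k] [CharZero L] [IsAlgClosed L] [FiniteDimensional L V] in
theorem separated_mul [Finite k] {r ℓ n e : ℕ}
    {I : Set (MvPolynomial (Fin (n + 1)) k)} {S : Finset k[X]} {H : TowerH2 k L V ι I ℓ e}
    (hS : ∀ π ∈ S, Irreducible π ∧ π.Monic) (hpr : PrimeTo H S)
    (hχ : ∀ i (K₀ : Type) [Field K₀] [Algebra k K₀], finrank k K₀ = H.m i →
      Gp.mul.IsChar ℓ (H.w i K₀)) (hS0 : ∀ π ∈ S, Gp.mul.val π ∈ Gp.mul.pts k)
    (h : Kummer r H S) : Separated .mul H S := by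
  obtain ⟨hr, hrq, h1, hd⟩ := h
  refine separated_of hS hpr ?_
  intro i K₀ _ _ hfin π hπ π' hπ' hne heq
  have hfd : Module.Finite k K₀ := Module.finite_of_finrank_pos (by rw [hfin]; exact H.m_pos i)
  have : Finite K₀ := Module.finite_of_finite k
  obtain ⟨ψ, -, hev⟩ := hχ i K₀ hfin
  set N := π'.natDegree / π.natDegree.gcd π'.natDegree with hN
  set N' := π.natDegree / π.natDegree.gcd π'.natDegree with hN'
  have hs0 : Gp.mul.val π ≠ 0 := hS0 π hπ
  have hs0' : Gp.mul.val π' ≠ 0 := hS0 π' hπ'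
  have hv : ∀ (x : K₀) (hx : x ≠ 0), H.w i K₀ K₀ x = ((ψ (Units.mk0 x hx) : Lˣ) : L) := by
    intro x hx
    rw [hev, norm_self', ev_of_ne ψ hx]
  obtain ⟨f, hf1, ⟨x, hx, hf0⟩, hm⟩ := h1 i K₀ hfin
  have hcard : Nat.card K₀ = Nat.card k ^ H.m i := by
    have := Fintype.ofFinite k
    have := Fintype.ofFinite K₀
    rw [Nat.card_eq_fintype_card, Nat.card_eq_fintype_card, Module.card_eq_pow_finrank (K := k),
      hfin]
  set u : kˣ := Units.mk0 _ hs0 ^ N * (Units.mk0 _ hs0' ^ N')⁻¹ with hu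
  refine mul_criterion (f := f) hr hrq (ψ := ψ) ?_ ?_ (by rw [hcard]; exact hm) (u := u) ?_ ?_
  · apply MonoidHom.ext
    intro y
    apply Units.ext
    have h2 := hf1 (y : K₀) y.ne_zero
    rw [hv _ y.ne_zero] at h2
    rw [MonoidHom.pow_apply, MonoidHom.one_apply, Units.val_pow_eq_pow_val, Units.val_one]
    have h3 : Units.mk0 (y : K₀) y.ne_zero = y := Units.ext rfl
    rw [h3] at h2
    exact h2
  · intro h2
    apply hf0
    rw [hv x hx, ← Units.val_pow_eq_pow_val, ← MonoidHom.pow_apply, h2, MonoidHom.one_apply,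
      Units.val_one]
  · intro y hy
    apply hd π hπ π' hπ' hne (y : k)
    have h2 := congrArg Units.val hy
    rw [Units.val_pow_eq_pow_val, hu, Units.val_mul, Units.val_inv_eq_inv_val,
      Units.val_pow_eq_pow_val, Units.val_pow_eq_pow_val, Units.val_mk0,
      Units.val_mk0] at h2
    rw [h2, mul_assoc, inv_mul_cancel₀ (pow_ne_zero _ hs0'), mul_one]
  · have h4 : algebraMap k K₀ (Gp.mul.val π) ≠ 0 := (_root_.map_ne_zero _).2 hs0
    have h4' : algebraMap k K₀ (Gp.mul.val π') ≠ 0 := (_root_.map_ne_zero _).2 hs0'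
    have h2 : ψ (Units.map (algebraMap k K₀ : k →* K₀) (Units.mk0 _ hs0)) ^ N =
        ψ (Units.map (algebraMap k K₀ : k →* K₀) (Units.mk0 _ hs0')) ^ N' := by
      apply Units.ext
      have h3 := heq
      rw [hv _ h4, hv _ h4'] at h3
      have h6 : Units.map (algebraMap k K₀ : k →* K₀) (Units.mk0 _ hs0) =
          Units.mk0 (algebraMap k K₀ (Gp.mul.val π)) h4 := Units.ext rfl
      have h6' : Units.map (algebraMap k K₀ : k →* K₀) (Units.mk0 _ hs0') =
          Units.mk0 (algebraMap k K₀ (Gp.mul.val π')) h4' := Units.ext rfl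
      rw [h6, h6', Units.val_pow_eq_pow_val, Units.val_pow_eq_pow_val]
      exact h3
    rw [hu, map_mul, map_inv, map_mul, map_inv, map_pow, map_pow, map_pow, map_pow, h2,
      mul_inv_cancel]

/-- The fibration `Y → G` and the closed points `S` of `G`: there is a level structure modulo `ℓ`,
for instance because `Y` is one of the following surfaces. -/
inductive Fibration (G : Gp) (ℓ : ℕ) (S : Finset k[X]) :
    ∀ {n : ℕ}, Set (MvPolynomial (Fin (n + 1)) k) → Prop
  /-- the number of the points of the fibres modulo `ℓ` is constant outside `S` -/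
  | level {n : ℕ} {I : Set (MvPolynomial (Fin (n + 1)) k)} : Level G ℓ I S → Fibration G ℓ S I
  /-- `y ∏ (x - A_a(t)) = 1`; the number of the sections `A_a` modulo the points of `S` differs
  from `n` modulo `ℓ` -/
  | sections {n : ℕ} {A : Fin n → k[X]} : (∀ π, π ∈ S ↔ (Irreducible π ∧ π.Monic) ∧
      G.val π ∈ G.pts k ∧ (classes A π : ZMod ℓ) ≠ n) → Fibration G ℓ S (n := 2) {sections A}
  /-- `y ^ 2 = x (x ^ 2 + a(t) x + b(t))`; the points of `S` divide exactly one of `b`,
  `a ^ 2 - 4 b` -/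
  | two {a b : k[X]} : ℓ = 2 → (∀ π, π ∈ S ↔ (Irreducible π ∧ π.Monic) ∧
      G.val π ∈ G.pts k ∧ ¬ (π ∣ b ↔ π ∣ a ^ 2 - 4 * b)) →
        Fibration G ℓ S (n := 2) {twoTorsion a b}
  /-- `y ^ 2 + a(t) x y + b(t) y = x ^ 3 + c(t) x ^ 2` with a section of order `ℓ = 3, 5, 7` at
  `x = y = 0`; the points of `S` divide the discriminant -/
  | tate {a b c : k[X]} : IsTate ℓ a b c → (∀ π, π ∈ S ↔ (Irreducible π ∧ π.Monic) ∧
      G.val π ∈ G.pts k ∧ π ∣ (tateCurve a b c).Δ) → Fibration G ℓ S (n := 2) {tate a b c}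

omit [Finite k] in
theorem Fibration.level' {G : Gp} {ℓ : ℕ} [Fact ℓ.Prime] (hℓ : (ℓ : k) ≠ 0) {S : Finset k[X]}
    {n : ℕ} {I : Set (MvPolynomial (Fin (n + 1)) k)} (h : Fibration G ℓ S I) :
    Level G ℓ I S := by
  cases h with
  | level h => exact h
  | sections h => exact level_sections h
  | two h1 h2 =>
    subst h1
    exact level_two (by exact_mod_cast hℓ) h2
  | tate h1 h2 => exact level_tate hℓ h1 h2

/-- **Main theorem.** -/
theorem result {p : ℕ} [Fact p.Prime] [CharP k p] {ℓ : ℕ} [Fact ℓ.Prime] (hℓ : ℓ ≠ p) {G : Gp}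
    {S : Finset k[X]} {n e : ℕ} {I : Set (MvPolynomial (Fin (n + 1)) k)}
    (hY : Fibration G ℓ S I) (H : TowerH2 k L V ι I ℓ e)
    (hχ : ∀ i (K₀ : Type) [Field K₀] [Algebra k K₀], finrank k K₀ = H.m i →
      G.IsChar ℓ (H.w i K₀))
    (dim : ∀ i, finrank L (H.W i) + Multiset.card (H.low i) ≤ ∑ π ∈ S, π.natDegree)
    (hsep : Separated G H S ∨ PrimeTo H S ∧
      (S.card = 1 ∨ G = .add ∧ ArtinSchreier p H S ∨ G = .mul ∧ ∃ r, Kummer r H S)) :
    H.Fr.IsSemisimple := by
  have hℓk : (ℓ : k) ≠ 0 := by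
    intro h
    rw [CharP.cast_eq_zero_iff k p, Nat.prime_dvd_prime_iff_eq (Fact.out : p.Prime)
      (Fact.out : ℓ.Prime)] at h
    exact hℓ h.symm
  have hL := hY.level' hℓk
  have hS : ∀ π ∈ S, Irreducible π ∧ π.Monic := fun π hπ => (hL.1 π hπ).1
  have hsep' : Separated G H S := by
    rcases hsep with h | ⟨hp, h | ⟨rfl, h⟩ | ⟨rfl, r, h⟩⟩
    · exact h
    · refine separated_of hS hp ?_
      intro i K₀ _ _ hfin π hπ π' hπ' hne
      obtain ⟨π₀, h0⟩ := Finset.card_eq_one.1 h
      rw [h0, Finset.mem_singleton] at hπ hπ'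
      exact absurd (hπ.trans hπ'.symm) hne
    · exact separated_add hS hp hχ h
    · exact separated_mul hS hp hχ (fun π hπ => (hL.1 π hπ).2) h
  exact main hℓk hL H hχ hsep' dim

end Pool.Agent.Results.MP_1fe969_ag.LevelTowers
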