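import Pool.Agent.Helper73.KT.Part
import Pool.Agent.Helper73.LF.Lin
import Pool.Agent.Helper73.LF.Chars
import Pool.Agent.Helper73.QC.Add
import Pool.Agent.Helper73.QC.Res
import Pool.Agent.Helper73.QC.Two
import Pool.Agent.Helper73.QC.Orbit
import Pool.Agent.Helper40.QC.K5
import Pool.Agent.Helper79.RC.Parity
import Pool.Agent.Helper79.RC.Two
import Pool.Agent.Helper41.RX.Four
import Pool.Agent.Helper41.RX.Block

/-!
# Frobenius on `H²(X̄, ℚ_ℓ)` for the abelian covers of the plane branched along a complete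
# quadrilateral, `ℓ` dividing the exponent
-/

open Module

namespace Pool.Agent.Results.MP_1fe969_ag.RamifiedCovers

open Pool.Agent.Helper73.KT Pool.Agent.Helper73.LF Pool.Agent.Helper73.QC
open Pool.Agent.Helper41.RC (vec repr_vec descent)
open Pool.Agent.Helper41.RX (RField block even_height cases_of_odd)

/-- the sum over the points of the complement of the quadrilateral -/
noncomputable def quadSum {K L : Type} [Field K] [Fintype K] [Field L]
    (χ : Fin 5 → MulChar K L) : L :=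
  ∑ x : K, ∑ y : K, χ 0 x * χ 1 (1 - x) * χ 2 y * χ 3 (1 - y) * χ 4 (x - y)

/-- the exponents of `x ^ a 0 * (1 - x) ^ a 1 * y ^ a 2 * (1 - y) ^ a 3 * (x - y) ^ a 4` along the
ten curves at the boundary of the moduli space of five points on the projective line -/
def residues {R : Type} [CommRing R] (a : Fin 5 → R) : Fin 10 → R :=
  ![a 0, a 1, a 2, a 3, a 4, -(a 0 + a 1 + a 4), -(a 2 + a 3 + a 4), a 0 + a 2 + a 4,
    a 1 + a 3 + a 4, -(a 0 + a 1 + a 2 + a 3 + a 4)]

/-- the power of the character `τ` with exponent `(q - 1) a / n`, `q` the number of elements -/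
noncomputable def power {K L : Type} [Field K] [Fintype K] [Field L] {n : ℕ} (τ : MulChar K L)
    (a : ZMod n) : MulChar K L := τ ^ ((Fintype.card K - 1) * a.val / n)

/-- Frobenius on `V = H²(X̄, L)` and the parts of `V` belonging to the characters of the group of
the cover. -/
structure QuadrilateralH2 (p n : ℕ) (L V : Type) [Field L] [AddCommGroup V] [Module L V] where
  /-- the geometric Frobenius -/
  Fr : End L V
  injective : Function.Injective Fr
  /-- the cup product -/
  B : LinearMap.BilinForm L V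
  symm : ∀ x y, B x y = B y x
  similitude : ∀ x y, B (Fr x) (Fr y) = (p : L) ^ 2 * B x y
  /-- the span of algebraic classes -/
  N : Submodule L V
  N_stable : ∀ x ∈ N, Fr x ∈ N
  N_semisimple : End.IsSemisimple (Fr.restrict N_stable)
  /-- the part belonging to the character with the exponents `a` -/
  W : (Fin 5 → ZMod n) → Submodule L V
  span : N ⊔ ⨆ a, W a = ⊤
  stable : ∀ a, ∀ x ∈ W a, Fr x ∈ W (fun i => p * a i)
  perfect : ∀ a, ∀ v ∈ W a, (∀ w ∈ W (-a), B v w = 0) → v = 0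
  finrank_le : ∀ a, finrank L (W a) ≤ 2
  /-- the character is unramified along one of the ten curves and its square is not trivial -/
  finrank_le_one : ∀ a, (∃ i, residues a i = 0) → (∃ i, 2 * a i ≠ 0) → finrank L (W a) ≤ 1
  /-- the trace formula -/
  trace_formula : ∀ (m : ℕ) (K : Type) [Field K] [Fintype K],
    Fintype.card K = p ^ m → ∃ τ : MulChar K L, orderOf τ = p ^ m - 1 ∧
      ∀ a, W a ≠ ⊥ → (∀ i, residues a i ≠ 0) → (∀ i, (p : ZMod n) ^ m * a i = a i) →
        ∀ h : ∀ x ∈ W a, (Fr ^ m) x ∈ W a,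
          LinearMap.trace L (W a) ((Fr ^ m).restrict h) = quadSum fun i => power τ (a i)

/-- The same with `ℓ = r`: `V = H²(X̄, ℚ_r) ⊗ L` for a field `L` containing `E = ℚ_r(ζ)`, `b` is a
basis of `H²(X̄, ℚ_r)`, and the determinant of the Hermitian form given by the cup product on the
part with the exponents `a` is the product of the ten numbers `1 - ζ ^ x`, `x` the exponents along
the ten curves, up to a norm. -/
structure RationalH2 (p : ℕ) {r c n : ℕ} {E : Type} [Field E] (F : RField r c n E) (L V : Type)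
    [Field L] [Algebra E L] [AddCommGroup V] [Module L V] extends QuadrilateralH2 p n L V where
  d : ℕ
  /-- a basis of the cohomology with coefficients in `ℚ_r` -/
  b : Basis (Fin d) L V
  Fr_rational : ∀ i j, ∃ x : E, F.σ x = x ∧ b.repr (Fr (b i)) j = algebraMap E L x
  B_rational : ∀ i j, ∃ x : E, F.σ x = x ∧ B (b i) (b j) = algebraMap E L x
  W_rational : ∀ a, W a ≤ Submodule.span L {x | x ∈ W a ∧ ∃ v : Fin d → E, x = vec b v}
  W_neg : ∀ a, ∀ v : Fin d → E, vec b v ∈ W a → vec b (fun i => F.σ (v i)) ∈ W (-a)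
  det : ∀ a, (∀ i, residues a i ≠ 0) → ∀ v w : Fin d → E, vec b v ∈ W a → vec b w ∈ W a →
    LinearIndependent L ![vec b v, vec b w] → ∃ z : E, z ≠ 0 ∧
      B (vec b v) (vec b fun i => F.σ (v i)) * B (vec b w) (vec b fun i => F.σ (w i)) -
        B (vec b v) (vec b fun i => F.σ (w i)) * B (vec b w) (vec b fun i => F.σ (v i)) =
      algebraMap E L (z * F.σ z * ∏ i, (1 - F.ζ ^ (residues a i).val))

/-! Notions used in the proof -/

/-- the sum of the representatives of the ten exponents in `[0, n)`, divided by `n` -/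
def height {n : ℕ} (a : Fin 5 → ZMod n) : ℕ := (∑ i, (residues a i).val) / n

/-- A power `p ^ m` fixes the exponents, and the sum of `1 + height` over the multiples of the
exponents by `h p ^ j`, `j < m`, is odd for a unit `h`. -/
def OddPlace (p : ℕ) {n : ℕ} (a : Fin 5 → ZMod n) : Prop :=
  ∃ m, 0 < m ∧ (∀ i, (p : ZMod n) ^ m * a i = a i) ∧ ∃ h : (ZMod n)ˣ,
    Odd (m + ∑ j ∈ Finset.range m, height fun i => (h : ZMod n) * (p : ZMod n) ^ j * a i)

section

variable {p n : ℕ} {L V : Type} [Field L] [AddCommGroup V] [Module L V]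

theorem stable_pow (H : QuadrilateralH2 p n L V) (j : ℕ) (a : Fin 5 → ZMod n) :
    ∀ x ∈ H.W a, (H.Fr ^ j) x ∈ H.W (fun i => (p : ZMod n) ^ j * a i) := by
  induction j with
  | zero =>
    intro x hx
    simp only [pow_zero, one_mul]
    exact hx
  | succ j ih =>
    intro x hx
    have h := H.stable _ _ (ih x hx)
    simp only [← mul_assoc, ← pow_succ'] at h
    rw [pow_succ' H.Fr]
    exact h

theorem stable_of (H : QuadrilateralH2 p n L V) {m : ℕ} {a : Fin 5 → ZMod n}
    (ha : ∀ i, (p : ZMod n) ^ m * a i = a i) : ∀ x ∈ H.W a, (H.Fr ^ m) x ∈ H.W a := by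
  intro x hx
  have h := stable_pow H m a x hx
  rwa [funext ha] at h

theorem similitude_pow (H : QuadrilateralH2 p n L V) (j : ℕ) (x y : V) :
    H.B ((H.Fr ^ j) x) ((H.Fr ^ j) y) = ((p : L) ^ j) ^ 2 * H.B x y := by
  induction j generalizing x y with
  | zero => simp
  | succ j ih =>
    rw [pow_succ, End.mul_apply, End.mul_apply, ih, H.similitude, pow_succ]
    ring

theorem ne_bot_neg (H : QuadrilateralH2 p n L V) {a : Fin 5 → ZMod n} (h : H.W a ≠ ⊥) :
    H.W (-a) ≠ ⊥ := by
  intro h0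
  apply h
  rw [eq_bot_iff]
  intro v hv
  rw [Submodule.mem_bot]
  apply H.perfect a v hv
  intro w hw
  rw [h0, Submodule.mem_bot] at hw
  rw [hw, map_zero]

variable [CharZero L] [IsAlgClosed L] [FiniteDimensional L V]

/-- a part belonging to a character of order two -/
theorem case_two (H : QuadrilateralH2 p n L V) (hp : p.Prime) (hpn : p.Coprime n)
    {a : Fin 5 → ZMod n} (h2 : ∀ i, 2 * a i = 0) : H.W a ≤ ⨆ c, H.Fr.eigenspace c := by
  have hneg : -a = a := by
    funext i
    rw [Pi.neg_apply]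
    linear_combination - h2 i
  have hpa : ∀ i, (p : ZMod n) ^ 1 * a i = a i := by
    intro i
    rw [pow_one]
    rcases hp.eq_two_or_odd' with h | ⟨j, hj⟩
    · -- `2` is a unit
      have h3 : IsUnit (2 : ZMod n) := by
        have := (ZMod.isUnit_iff_coprime p n).2 hpn
        rw [h] at this
        exact_mod_cast this
      have h4 : a i = 0 := h3.mul_right_eq_zero.1 (h2 i)
      rw [h4, mul_zero]
    · rw [hj]
      push_cast
      linear_combination (j : ZMod n) * h2 i
  refine le_of_restrict H.injective one_pos (stable_of H hpa) ?_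
  intro x c hx
  by_contra hx'
  have hc : ((p : L) ^ 1) ^ 2 ≠ 0 := pow_ne_zero _ (pow_ne_zero _ (Nat.cast_ne_zero.2 hp.ne_zero))
  exact symm_no_block (T := (H.Fr ^ 1).restrict (stable_of H hpa))
    (H.B.compl₁₂ (H.W a).subtype (H.W a).subtype) hc
    (fun y z => similitude_pow H 1 (y : V) (z : V)) (fun y z => H.symm _ _)
    (fun y hy => Subtype.ext (H.perfect a y y.2 fun w hw => by
      rw [hneg] at hw
      exact hy ⟨w, hw⟩)) (H.finrank_le a) hx hx'

/-- a part on which a power of Frobenius has no Jordan block -/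
theorem part (H : QuadrilateralH2 p n L V) {m : ℕ} (hm : 0 < m) {a : Fin 5 → ZMod n}
    (h2 : ∃ i, 2 * a i ≠ 0) (ha : ∀ i, (p : ZMod n) ^ m * a i = a i)
    (hbad : H.W a ≠ ⊥ → (∀ i, residues a i ≠ 0) →
      ∀ (x : H.W a) (c : L), ((H.Fr ^ m).restrict (stable_of H ha) - c • 1)
        (((H.Fr ^ m).restrict (stable_of H ha) - c • 1) x) = 0 →
          ((H.Fr ^ m).restrict (stable_of H ha) - c • 1) x ≠ 0 → False) :
    H.W a ≤ ⨆ c, H.Fr.eigenspace c := by
  refine le_of_restrict H.injective hm (stable_of H ha) ?_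
  intro x c hx
  by_contra hx'
  have h2' := two_le hx hx'
  have hne : H.W a ≠ ⊥ := by
    intro h0
    rw [h0, finrank_bot] at h2'
    omega
  refine hbad hne ?_ x c hx hx'
  by_contra hdeg
  push Not at hdeg
  have := H.finrank_le_one a hdeg h2
  omega

end

section

variable {p n : ℕ} [hp : Fact p.Prime] [NeZero n] {L V : Type} [Field L] [AddCommGroup V]
    [Module L V] [CharZero L] [IsAlgClosed L] [FiniteDimensional L V]

omit [NeZero n] in
theorem kill {m : ℕ} {a : ZMod n} (ha : (p : ZMod n) ^ m * a = a) :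
    ((p ^ m - 1 : ℕ) : ZMod n) * a = 0 := by
  rw [Nat.cast_sub (Nat.one_le_pow _ _ hp.out.pos), Nat.cast_one, Nat.cast_pow, sub_mul, ha,
    one_mul, sub_self]

omit hp [NeZero n] in
theorem exists_addChar (L : Type) [Field L] [CharZero L] [IsAlgClosed L] (K : Type) [Field K]
    [Fintype K] : ∃ ψ : AddChar K L, ψ.IsPrimitive := by
  have h : ringChar L ≠ ringChar K := by
    rw [ringChar.eq_zero]
    intro h
    have : CharP K 0 := by
      rw [h]
      exact ringChar.charP K
    have : CharZero K := CharP.charP_to_charZero K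
    exact not_injective_infinite_finite (Nat.cast : ℕ → K) Nat.cast_injective
  let ψ := AddChar.FiniteField.primitiveChar K L h
  have hcyc : IsCyclotomicExtension {(ψ.n : ℕ)} L (CyclotomicField ψ.n L) :=
    CyclotomicField.isCyclotomicExtension ψ.n L
  have hfin : FiniteDimensional L (CyclotomicField ψ.n L) :=
    IsCyclotomicExtension.finiteDimensional {(ψ.n : ℕ)} L (CyclotomicField ψ.n L)
  let φ : CyclotomicField ψ.n L →ₐ[L] L := IsAlgClosed.lift
  exact ⟨_, ψ.prim.compMulHom_of_isPrimitive (f := (φ : CyclotomicField ψ.n L →* L)) φ.injective⟩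

omit hp [NeZero n] in
theorem residues_neg (a : Fin 5 → ZMod n) (i : Fin 10) : residues (-a) i = - residues a i := by
  fin_cases i <;> simp [residues] <;> ring

omit hp [NeZero n] [CharZero L] [IsAlgClosed L] in
theorem quadSum_eq {K : Type} [Field K] [Fintype K] (τ : MulChar K L) (a : Fin 5 → ZMod n) :
    (quadSum fun i => power τ (a i)) =
      quad (ch τ (a 0)) (ch τ (a 1)) (ch τ (a 2)) (ch τ (a 3)) (ch τ (a 4)) := rfl

omit [IsAlgClosed L] in
/-- the traces on a part and on the dual part if there is a Jordan block -/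
theorem dual_traces (H : QuadrilateralH2 p n L V) {m : ℕ} {a : Fin 5 → ZMod n}
    (ha : ∀ i, (p : ZMod n) ^ m * a i = a i) (hne : H.W a ≠ ⊥)
    (hdeg : ∀ i, residues a i ≠ 0) {x : H.W a} {c : L}
    (hx : ((H.Fr ^ m).restrict (stable_of H ha) - c • 1)
        (((H.Fr ^ m).restrict (stable_of H ha) - c • 1) x) = 0)
    (hx' : ((H.Fr ^ m).restrict (stable_of H ha) - c • 1) x ≠ 0)
    (K : Type) [Field K] [Fintype K] (hK : Fintype.card K = p ^ m) :
    ∃ τ : MulChar K L, orderOf τ = Fintype.card K - 1 ∧ c ≠ 0 ∧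
      quad (ch τ (a 0)) (ch τ (a 1)) (ch τ (a 2)) (ch τ (a 3)) (ch τ (a 4)) = 2 * c ∧
      quad (ch τ (a 0))⁻¹ (ch τ (a 1))⁻¹ (ch τ (a 2))⁻¹ (ch τ (a 3))⁻¹ (ch τ (a 4))⁻¹ =
        2 * ((Fintype.card K : L) ^ 2 / c) := by
  obtain ⟨τ, hτ, htr⟩ := H.trace_formula m K hK
  rw [← hK] at hτ
  have hKa : ∀ i, ((Fintype.card K - 1 : ℕ) : ZMod n) * a i = 0 := by
    intro i
    rw [hK]
    exact kill (ha i)
  have ha' : ∀ i, (p : ZMod n) ^ m * (-a) i = (-a) i := by
    intro i
    rw [Pi.neg_apply, mul_neg, ha]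
  have hQ0 : ((p : L) ^ m) ^ 2 ≠ 0 :=
    pow_ne_zero _ (pow_ne_zero _ (Nat.cast_ne_zero.2 hp.out.ne_zero))
  have t1 := htr a hne hdeg ha (stable_of H ha)
  have t2 := htr (-a) (ne_bot_neg H hne) (fun i => by
    rw [residues_neg]
    exact neg_ne_zero.2 (hdeg i)) ha' (stable_of H ha')
  obtain ⟨hc, h1, h2⟩ := pair_trace (T := (H.Fr ^ m).restrict (stable_of H ha))
    (T' := (H.Fr ^ m).restrict (stable_of H ha'))
    (H.B.compl₁₂ (H.W a).subtype (H.W (-a)).subtype) hQ0
    (fun y z => similitude_pow H m (y : V) (z : V))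
    (fun y hy => Subtype.ext (H.perfect a y y.2 fun w hw => hy ⟨w, hw⟩))
    (fun z hz => Subtype.ext (H.perfect (-a) z z.2 fun w hw => by
      rw [neg_neg] at hw
      rw [H.symm]
      exact hz ⟨w, hw⟩)) (H.finrank_le a) hx hx'
  refine ⟨τ, hτ, hc, ?_, ?_⟩
  · rw [← h1, t1]
    rfl
  · rw [← ch_neg hτ (hKa 0), ← ch_neg hτ (hKa 1), ← ch_neg hτ (hKa 2), ← ch_neg hτ (hKa 3),
      ← ch_neg hτ (hKa 4), hK, Nat.cast_pow, ← h2, t2]
    rfl

/-- the case of an odd valuation -/
theorem case_place (H : QuadrilateralH2 p n L V) (hpn : p.Coprime n) {a : Fin 5 → ZMod n}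
    (h2 : ∃ i, 2 * a i ≠ 0) (h : OddPlace p a) : H.W a ≤ ⨆ c, H.Fr.eigenspace c := by
  obtain ⟨m, hm0, ha, g, hodd⟩ := h
  refine part H hm0 h2 ha ?_
  intro hne hdeg x c hx hx'
  obtain ⟨K, _, _, hfin⟩ := exists_field (ZMod p) hm0
  have : Module.Finite (ZMod p) K := Module.finite_of_finrank_pos (by rw [hfin]; exact hm0)
  have : Finite K := Module.finite_of_finite (ZMod p)
  have := Fintype.ofFinite K
  have hK : Fintype.card K = p ^ m := by
    rw [Module.card_eq_pow_finrank (K := ZMod p), hfin, ZMod.card]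
  obtain ⟨τ, hτ, hc, h1, h2'⟩ := dual_traces H ha hne hdeg hx hx' K hK
  obtain ⟨ψ, hψ⟩ := exists_addChar L K
  have hKa : ∀ i, ((Fintype.card K - 1 : ℕ) : ZMod n) * a i = 0 := by
    intro i
    rw [hK]
    exact kill (ha i)
  -- the characters are not trivial
  have hKadd : ∀ {b c : ZMod n}, ((Fintype.card K - 1 : ℕ) : ZMod n) * b = 0 →
      ((Fintype.card K - 1 : ℕ) : ZMod n) * c = 0 →
        ((Fintype.card K - 1 : ℕ) : ZMod n) * (b + c) = 0 := by
    intro b c hb hc
    rw [mul_add, hb, hc, add_zero]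
  have d5 : a 0 + a 1 + a 4 ≠ 0 := neg_ne_zero.1 (hdeg 5)
  have d6 : a 2 + a 3 + a 4 ≠ 0 := neg_ne_zero.1 (hdeg 6)
  have d7 : a 0 + a 2 + a 4 ≠ 0 := hdeg 7
  have d8 : a 1 + a 3 + a 4 ≠ 0 := hdeg 8
  have d9 : a 0 + a 1 + a 2 + a 3 + a 4 ≠ 0 := neg_ne_zero.1 (hdeg 9)
  have three : ∀ {b c d : ZMod n}, ((Fintype.card K - 1 : ℕ) : ZMod n) * b = 0 →
      ((Fintype.card K - 1 : ℕ) : ZMod n) * c = 0 →
      ((Fintype.card K - 1 : ℕ) : ZMod n) * d = 0 → b + c + d ≠ 0 →
        ch τ b * ch τ c * ch τ d ≠ 1 := by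
    intro b c d hb hc hd h0
    rw [← ch_add hτ hb hc, ← ch_add hτ (hKadd hb hc) hd]
    exact ch_ne_one hτ (hKadd (hKadd hb hc) hd) h0
  have five : ch τ (a 0) * ch τ (a 1) * ch τ (a 2) * ch τ (a 3) * ch τ (a 4) ≠ 1 := by
    rw [← ch_add hτ (hKa 0) (hKa 1), ← ch_add hτ (hKadd (hKa 0) (hKa 1)) (hKa 2),
      ← ch_add hτ (hKadd (hKadd (hKa 0) (hKa 1)) (hKa 2)) (hKa 3),
      ← ch_add hτ (hKadd (hKadd (hKadd (hKa 0) (hKa 1)) (hKa 2)) (hKa 3)) (hKa 4)]
    exact ch_ne_one hτ (hKadd (hKadd (hKadd (hKadd (hKa 0) (hKa 1)) (hKa 2)) (hKa 3)) (hKa 4)) d9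
  have hfe := Pool.Agent.Helper40.QC.functional_equation' (ch_ne_one hτ (hKa 0) (hdeg 0))
    (ch_ne_one hτ (hKa 1) (hdeg 1)) (ch_ne_one hτ (hKa 2) (hdeg 2)) (ch_ne_one hτ (hKa 3) (hdeg 3))
    (ch_ne_one hτ (hKa 4) (hdeg 4)) (three (hKa 0) (hKa 1) (hKa 4) d5)
    (three (hKa 2) (hKa 3) (hKa 4) d6) (three (hKa 0) (hKa 2) (hKa 4) d7)
    (three (hKa 1) (hKa 3) (hKa 4) d8) five hψ
  rw [h1, h2'] at hfe
  have hsq := sq_ne_orbit hpn hm0 hK hτ hψ a ha g hodd
  apply hsq
  rw [h1]
  set T := ten (ch τ (a 0)) (ch τ (a 1)) (ch τ (a 2)) (ch τ (a 3)) (ch τ (a 4)) ψ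
  have h3 : T * (2 * c) * (2 * c) = (Fintype.card K : L) ^ 5 *
      (2 * ((Fintype.card K : L) ^ 2 / c)) * (2 * c) := by rw [hfe]
  calc T * (2 * c) ^ 2 = T * (2 * c) * (2 * c) := by ring
    _ = (Fintype.card K : L) ^ 5 * (2 * ((Fintype.card K : L) ^ 2 / c)) * (2 * c) := h3
    _ = 4 * (Fintype.card K : L) ^ 7 := by
      field_simp
      ring

end

section

variable {p r c n : ℕ} {E : Type} [Field E] {F : RField r c n E} {L V : Type}
  [Field L] [Algebra E L] [AddCommGroup V] [Module L V]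

/-- the matrix of Frobenius is fixed by the involution -/
theorem Fr_vec (H : RationalH2 p F L V) (v : Fin H.d → E) :
    ∃ w, H.Fr (vec H.b v) = vec H.b w ∧
      H.Fr (vec H.b fun i => F.σ (v i)) = vec H.b fun i => F.σ (w i) := by
  choose A hA1 hA2 using H.Fr_rational
  have key : ∀ v : Fin H.d → E, H.Fr (vec H.b v) = vec H.b fun j => ∑ i, A i j * v i := by
    intro v
    apply H.b.repr.injective
    ext j
    rw [repr_vec, vec, map_sum, map_sum, Finsupp.finsetSum_apply, map_sum]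
    refine Finset.sum_congr rfl fun i _ => ?_
    rw [map_smul, map_smul, Finsupp.smul_apply, hA2, smul_eq_mul, map_mul, mul_comm]
  refine ⟨_, key v, ?_⟩
  rw [key]
  congr 1
  funext j
  rw [map_sum]
  refine Finset.sum_congr rfl fun i _ => ?_
  rw [map_mul, hA1]

theorem Fr_pow_vec (H : RationalH2 p F L V) (m : ℕ) (v : Fin H.d → E) :
    ∃ w, (H.Fr ^ m) (vec H.b v) = vec H.b w ∧
      (H.Fr ^ m) (vec H.b fun i => F.σ (v i)) = vec H.b fun i => F.σ (w i) := by
  induction m with
  | zero => exact ⟨v, rfl, rfl⟩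
  | succ m ih =>
    obtain ⟨w, h1, h2⟩ := ih
    obtain ⟨w', h3, h4⟩ := Fr_vec H w
    refine ⟨w', ?_, ?_⟩
    · rw [pow_succ', End.mul_apply, h1, h3]
    · rw [pow_succ', End.mul_apply, h2, h4]

/-- values of the form -/
theorem B_vec (H : RationalH2 p F L V) (v w : Fin H.d → E) :
    ∃ x : E, H.B (vec H.b v) (vec H.b w) = algebraMap E L x ∧
      H.B (vec H.b fun i => F.σ (v i)) (vec H.b fun i => F.σ (w i)) =
        algebraMap E L (F.σ x) := by
  choose A hA1 hA2 using H.B_rational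
  have key : ∀ v w : Fin H.d → E, H.B (vec H.b v) (vec H.b w) =
      algebraMap E L (∑ i, ∑ j, v i * w j * A i j) := by
    intro v w
    simp only [vec, map_sum, map_smul, LinearMap.sum_apply, LinearMap.smul_apply, hA2,
      smul_eq_mul, map_mul]
    rw [Finset.sum_comm]
    refine Finset.sum_congr rfl fun i _ => ?_
    rw [Finset.mul_sum]
    refine Finset.sum_congr rfl fun j _ => ?_
    ring
  refine ⟨_, key v w, ?_⟩
  rw [key]
  congr 1
  simp only [map_sum, map_mul, hA1]

theorem block_data (H : RationalH2 p F L V) [CharZero L] [FiniteDimensional L V]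
    (hp : p ≠ 0) {m : ℕ} {a : Fin 5 → ZMod n}
    (hsim : ∀ x y, H.B ((H.Fr ^ m) x) ((H.Fr ^ m) y) = ((p : L) ^ m) ^ 2 * H.B x y)
    (hst : ∀ x ∈ H.W a, (H.Fr ^ m) x ∈ H.W a) (x : H.W a) (c : L)
    (h1 : ((H.Fr ^ m).restrict hst - c • 1) (((H.Fr ^ m).restrict hst - c • 1) x) = 0)
    (h2 : ((H.Fr ^ m).restrict hst - c • 1) x ≠ 0) :
    ∃ (e v : Fin H.d → E) (c0 : E), vec H.b e ∈ H.W a ∧ vec H.b v ∈ H.W a ∧
      LinearIndependent L ![vec H.b e, vec H.b v] ∧
      H.B (vec H.b v) (vec H.b fun i => F.σ (v i)) = 0 ∧ algebraMap E L c0 = c ∧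
      (H.Fr ^ m) (vec H.b v) = c • vec H.b v ∧ ((H.Fr ^ m) (vec H.b fun i => F.σ (v i)) =
        algebraMap E L (F.σ c0) • vec H.b fun i => F.σ (v i)) ∧
      ∀ y ∈ H.W a, (H.Fr ^ m) y = c • y → ∃ β : L, y = β • vec H.b v := by
  have hQ : ((p : L) ^ m) ^ 2 ≠ 0 := pow_ne_zero _ (pow_ne_zero _ (Nat.cast_ne_zero.2 hp))
  have h1' : (H.Fr ^ m) ((H.Fr ^ m) (x : V) - c • (x : V)) =
      c • ((H.Fr ^ m) (x : V) - c • (x : V)) := by
    have := congrArg Subtype.val h1
    simp only [LinearMap.sub_apply, LinearMap.smul_apply, End.one_apply, LinearMap.restrict_apply,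
      Submodule.coe_sub, Submodule.coe_smul, Submodule.coe_zero] at this
    rw [sub_eq_zero] at this
    exact this
  have h2' : (H.Fr ^ m) (x : V) - c • (x : V) ≠ 0 := by
    intro h
    apply h2
    apply Subtype.ext
    simp only [LinearMap.sub_apply, LinearMap.smul_apply, End.one_apply, LinearMap.restrict_apply,
      Submodule.coe_sub, Submodule.coe_smul, Submodule.coe_zero]
    exact h
  exact block F.σ H.b (H.Fr ^ m) H.B hQ hsim
    (fun v => Fr_pow_vec H m v) (H.W a) (H.W_rational a) (H.finrank_le a) hst x.2 h1' h2'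

/-- A Jordan block of a power of Frobenius on a part of rank two: minus the product of the ten
numbers `1 - ζ ^ x` is a norm. -/
theorem norm_of_block (H : RationalH2 p F L V) [CharZero L] [FiniteDimensional L V]
    (hp : p ≠ 0) {m : ℕ} {a : Fin 5 → ZMod n} (hres : ∀ i, residues a i ≠ 0)
    (hsim : ∀ x y, H.B ((H.Fr ^ m) x) ((H.Fr ^ m) y) = ((p : L) ^ m) ^ 2 * H.B x y)
    (hst : ∀ x ∈ H.W a, (H.Fr ^ m) x ∈ H.W a) (x : H.W a) (c : L)
    (h1 : ((H.Fr ^ m).restrict hst - c • 1) (((H.Fr ^ m).restrict hst - c • 1) x) = 0)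
    (h2 : ((H.Fr ^ m).restrict hst - c • 1) x ≠ 0) :
    ∃ y : E, y * F.σ y = -∏ i, (1 - F.ζ ^ (residues a i).val) := by
  obtain ⟨e, v, -, he, hv, hind, hiso, -⟩ := block_data H hp hsim hst x c h1 h2
  obtain ⟨z, hz, hdet⟩ := H.det a hres e v he hv hind
  rw [hiso, mul_zero, zero_sub] at hdet
  obtain ⟨y, hy1, hy2⟩ := B_vec H e fun i => F.σ (v i)
  have hy3 : H.B (vec H.b v) (vec H.b fun i => F.σ (e i)) = algebraMap E L (F.σ y) := by
    rw [H.symm, ← hy2]
    simp only [F.invol]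
  rw [hy1, hy3, ← map_mul, ← map_neg] at hdet
  have h3 := (algebraMap E L).injective hdet
  have hσz : F.σ z ≠ 0 := (map_ne_zero F.σ).2 hz
  refine ⟨y / z, ?_⟩
  rw [map_div₀]
  field_simp
  linear_combination -h3

/-- A Jordan block on a part which a power of Frobenius maps to its dual: minus one is a norm. -/
theorem norm_of_self (H : RationalH2 p F L V) [CharZero L] [FiniteDimensional L V]
    (hp : p ≠ 0) {f m : ℕ} (hm : m = f + f) {a : Fin 5 → ZMod n}
    (hsim : ∀ j x y, H.B ((H.Fr ^ j) x) ((H.Fr ^ j) y) = ((p : L) ^ j) ^ 2 * H.B x y)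
    (hst : ∀ x ∈ H.W a, (H.Fr ^ m) x ∈ H.W a)
    (hneg : ∀ x ∈ H.W a, (H.Fr ^ f) x ∈ H.W (-a)) (hneg' : ∀ x ∈ H.W (-a), (H.Fr ^ f) x ∈ H.W a)
    (x : H.W a) (c : L)
    (h1 : ((H.Fr ^ m).restrict hst - c • 1) (((H.Fr ^ m).restrict hst - c • 1) x) = 0)
    (h2 : ((H.Fr ^ m).restrict hst - c • 1) x ≠ 0) : ∃ y : E, y * F.σ y = -1 := by
  have hp0 : (p : L) ≠ 0 := Nat.cast_ne_zero.2 hp
  have hpow : ∀ y : V, (H.Fr ^ m) y = (H.Fr ^ f) ((H.Fr ^ f) y) := by
    intro y
    rw [hm, pow_add, End.mul_apply]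
  -- the eigenvalue
  have hQ0 : ((p : L) ^ f) ^ 2 ≠ 0 := pow_ne_zero _ (pow_ne_zero _ hp0)
  have hinj : Function.Injective (H.Fr ^ f) := by
    rw [End.coe_pow]
    exact H.injective.iterate _
  have hsurj : ∀ w ∈ H.W (-a), ∃ y ∈ H.W a, (H.Fr ^ f) y = w := by
    intro w hw
    let T : End L (H.W (-a)) := ((H.Fr ^ f) ∘ₗ (H.Fr ^ f)).restrict
      (fun y hy => hneg _ (hneg' y hy))
    have hTi : Function.Injective T := by
      intro y z hyz
      have h := congrArg Subtype.val hyz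
      exact Subtype.ext (hinj (hinj h))
    obtain ⟨y, hy⟩ := LinearMap.injective_iff_surjective.1 hTi ⟨w, hw⟩
    exact ⟨(H.Fr ^ f) (y : V), hneg' _ y.2, congrArg Subtype.val hy⟩
  have htr := Pool.Agent.Helper73.LF.self_trace (T := (H.Fr ^ m).restrict hst)
    (H.B.compl₁₂ (H.W a).subtype ((H.Fr ^ f) ∘ₗ (H.W a).subtype)) hQ0
    (fun y z => by
      change H.B ((H.Fr ^ m) (y : V)) ((H.Fr ^ f) (z : V)) =
        ((p : L) ^ f) ^ 2 * H.B (z : V) ((H.Fr ^ f) (y : V))
      rw [hpow, hsim, H.symm])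
    (fun y hy => Subtype.ext (H.perfect a y y.2 fun w hw => by
      obtain ⟨z, hz, rfl⟩ := hsurj w hw
      exact hy ⟨z, hz⟩)) (H.finrank_le a) h1 h2
  have hc : c = -((p : L) ^ f) ^ 2 := by
    have h3 := Pool.Agent.Helper73.LF.trace_of_sq
      (Pool.Agent.Helper73.LF.sq_all (H.finrank_le a) h1 h2)
    have h4 : finrank L (H.W a) = 2 :=
      le_antisymm (H.finrank_le a) (Pool.Agent.Helper73.LF.two_le h1 h2)
    rw [h4, htr] at h3
    push_cast at h3
    have h5 : (2 : L) ≠ 0 := two_ne_zero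
    apply mul_left_cancel₀ h5
    linear_combination -h3
  obtain ⟨e, v, c0, he, hv, hind, hiso, hc0, hTv, hTσ, hline⟩ :=
    block_data H hp (hsim m) hst x c h1 h2
  have hcE : c0 = -((p : E) ^ f) ^ 2 := by
    apply (algebraMap E L).injective
    rw [hc0, hc]
    simp
  have hσc : F.σ c0 = c0 := by
    rw [hcE]
    simp
  rw [hσc, hc0] at hTσ
  obtain ⟨w, hw1, hw2⟩ := Fr_pow_vec H f v
  have hσw : vec H.b (fun i => F.σ (w i)) ∈ H.W a := by
    have h3 := H.W_neg (-a) w (by rw [← hw1]; exact hneg _ hv)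
    rwa [neg_neg] at h3
  have hTw : (H.Fr ^ m) (vec H.b fun i => F.σ (w i)) = c • vec H.b fun i => F.σ (w i) := by
    rw [← hw2, hpow, ← hpow, ← map_smul, ← hTσ]
    rw [hpow, hpow]
  obtain ⟨β, hβ⟩ := hline _ hσw hTw
  -- the coefficient is rational
  have hv0 : vec H.b v ≠ 0 := by
    intro h0
    rw [LinearIndependent.pair_iff] at hind
    have := hind 0 1 (by rw [h0]; simp)
    exact one_ne_zero this.2
  obtain ⟨i, hi⟩ : ∃ i, v i ≠ 0 := by
    by_contra hcon
    push Not at hcon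
    apply hv0
    simp [vec, hcon]
  have hcoord : ∀ j, algebraMap E L (F.σ (w j)) = β * algebraMap E L (v j) := by
    intro j
    have h3 := congrArg (fun v => H.b.repr v j) hβ
    simp only [map_smul, Finsupp.smul_apply, repr_vec, smul_eq_mul] at h3
    exact h3
  set β0 : E := F.σ (w i) / v i with hβ0
  have hβE : algebraMap E L β0 = β := by
    rw [hβ0, map_div₀, hcoord, mul_div_assoc, div_self, mul_one]
    exact (map_ne_zero _).2 hi
  have hcoord' : ∀ j, F.σ (w j) = β0 * v j := by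
    intro j
    apply (algebraMap E L).injective
    rw [map_mul, hβE, hcoord]
  have hw3 : ∀ j, w j = F.σ β0 * F.σ (v j) := by
    intro j
    rw [← map_mul, ← hcoord', F.invol]
  have hfin : (H.Fr ^ m) (vec H.b v) = algebraMap E L (F.σ β0 * β0) • vec H.b v := by
    have h3 : vec H.b w = algebraMap E L (F.σ β0) • vec H.b fun j => F.σ (v j) := by
      apply H.b.repr.injective
      ext j
      rw [map_smul, Finsupp.smul_apply, repr_vec, repr_vec, hw3, map_mul, smul_eq_mul]
    rw [hpow, hw1, h3, map_smul, hw2, hβ, map_mul, hβE, smul_smul]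
  have h5 : c = algebraMap E L (F.σ β0 * β0) := by
    have h6 : c • vec H.b v = algebraMap E L (F.σ β0 * β0) • vec H.b v := by rw [← hTv, hfin]
    exact smul_left_injective L hv0 h6
  have h6 : F.σ β0 * β0 = -((p : E) ^ f) ^ 2 := by
    rw [← hcE]
    apply (algebraMap E L).injective
    rw [hc0, ← h5]
  have : CharZero E := (algebraMap E L).charZero
  have hpE : (p : E) ≠ 0 := Nat.cast_ne_zero.2 hp
  refine ⟨β0 / (p : E) ^ f, ?_⟩
  rw [map_div₀, map_pow, map_natCast]
  field_simp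
  linear_combination h6

end

section

variable {p r c n : ℕ} [hp : Fact p.Prime] [NeZero n] {E : Type} [Field E] {F : RField r c n E}
  {L V : Type} [Field L] [Algebra E L] [AddCommGroup V] [Module L V] [CharZero L] [IsAlgClosed L]
  [FiniteDimensional L V]

omit [NeZero n] in
/-- a part which a power of Frobenius maps to its dual -/
theorem case_self (H : RationalH2 p F L V) {a : Fin 5 → ZMod n} (h2 : ∃ i, 2 * a i ≠ 0) {f : ℕ}
    (ha : ∀ i, (p : ZMod n) ^ f * a i = -a i) (hnorm : ∀ y : E, y * F.σ y ≠ -1) :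
    H.W a ≤ ⨆ c, H.Fr.eigenspace c := by
  have hf0 : 0 < f := by
    rcases f.eq_zero_or_pos with h | h
    · exfalso
      obtain ⟨i, hi⟩ := h2
      apply hi
      have h3 := ha i
      rw [h, pow_zero, one_mul] at h3
      linear_combination h3
    · exact h
  have ha2 : ∀ i, (p : ZMod n) ^ (f + f) * a i = a i := by
    intro i
    rw [pow_add, mul_assoc, ha, mul_neg, ha, neg_neg]
  refine part H.toQuadrilateralH2 (by omega) h2 ha2 ?_
  intro _ _ x c hx hx'
  obtain ⟨y, hy⟩ := norm_of_self H hp.out.ne_zero rfl (similitude_pow H.toQuadrilateralH2)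
    (stable_of H.toQuadrilateralH2 ha2)
    (fun y hy => by
      have h := stable_pow H.toQuadrilateralH2 f a y hy
      rwa [show (fun i => (p : ZMod n) ^ f * a i) = -a from funext fun i => ha i] at h)
    (fun y hy => by
      have h := stable_pow H.toQuadrilateralH2 f (-a) y hy
      have e : (fun i => (p : ZMod n) ^ f * (-a) i) = a := funext fun i => by
        rw [Pi.neg_apply, mul_neg, ha, neg_neg]
      rwa [e] at h) x c hx hx'
  exact hnorm y hy

/-- the case of a product which is not a norm -/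
theorem case_norm (H : RationalH2 p F L V) (hpn : p.Coprime n) {a : Fin 5 → ZMod n}
    (h2 : ∃ i, 2 * a i ≠ 0) (hcrit : H.W a ≠ ⊥ → (∀ i, residues a i ≠ 0) →
      ∀ y : E, y * F.σ y = -∏ i, (1 - F.ζ ^ (residues a i).val) → OddPlace p a) :
    H.W a ≤ ⨆ c, H.Fr.eigenspace c := by
  by_cases hd : OddPlace p a
  · exact case_place H.toQuadrilateralH2 hpn h2 hd
  · let P : (ZMod n)ˣ := ZMod.unitOfCoprime p hpn
    have hP : (p : ZMod n) ^ orderOf P = 1 := by
      have h4 := congrArg Units.val (pow_orderOf_eq_one P)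
      rwa [Units.val_pow_eq_pow_val, ZMod.coe_unitOfCoprime, Units.val_one] at h4
    refine part H.toQuadrilateralH2 (orderOf_pos P) h2 (fun i => by rw [hP, one_mul]) ?_
    intro hW hres x c h1 h1'
    obtain ⟨y, hy⟩ := norm_of_block H hp.out.ne_zero hres
      (similitude_pow H.toQuadrilateralH2 _) _ x c h1 h1'
    exact hd (hcrit hW hres y hy)

end

/-- a power of `p` congruent to minus one -/
theorem exists_pow_eq {p r k : ℕ} [hp : Fact p.Prime] [hr : Fact r.Prime] (hr2 : r ≠ 2)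
    (hpn : p.Coprime (2 * r ^ k)) {j : ℕ} (hj : r ∣ p ^ j + 1) :
    ∃ f, (p : ZMod (2 * r ^ k)) ^ f = -1 := by
  refine ⟨j * r ^ k, ?_⟩
  have h1 := dvd_pow_add_one' (hr.out.odd_of_ne_two hr2) hj k
  rw [← pow_mul] at h1
  have h2 : 2 ∣ p ^ (j * r ^ k) + 1 := by
    have h3 : Odd p := by
      rcases hp.out.eq_two_or_odd' with h | h
      · exfalso
        rw [h] at hpn
        have := Nat.Coprime.coprime_dvd_right (Dvd.intro _ rfl : 2 ∣ 2 * r ^ k) hpn
        exact absurd this (by decide)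
      · exact h
    obtain ⟨i, hi⟩ := h3.pow (n := j * r ^ k)
    exact ⟨i + 1, by rw [hi]; ring⟩
  have h3 : 2 * r ^ k ∣ p ^ (j * r ^ k) + 1 := by
    refine Nat.Coprime.mul_dvd_of_dvd_of_dvd ?_ h2 h1
    exact ((Nat.coprime_primes Nat.prime_two hr.out).2 (Ne.symm hr2)).pow_right k
  have h4 : ((p ^ (j * r ^ k) + 1 : ℕ) : ZMod (2 * r ^ k)) = 0 :=
    (ZMod.natCast_eq_zero_iff _ _).2 h3
  push_cast at h4
  linear_combination h4

/-- the order of `p` if no power is congruent to minus one -/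
theorem odd_order {p r k : ℕ} [hp : Fact p.Prime] [hr : Fact r.Prime] (hr2 : r ≠ 2)
    (hpn : p.Coprime (2 * r ^ k)) (hj : ¬ ∃ f, (p : ZMod (2 * r ^ k)) ^ f = -1) :
    Odd (orderOf (ZMod.unitOfCoprime p hpn)) := by
  have hrp : r.Prime := hr.out
  have : NeZero (2 * r ^ k) := ⟨mul_ne_zero two_ne_zero (pow_ne_zero k hrp.ne_zero)⟩
  rw [← Nat.not_even_iff_odd]
  rintro ⟨q, hq⟩
  set P : (ZMod (2 * r ^ k))ˣ := ZMod.unitOfCoprime p hpn with hPdef
  have hP : (P : ZMod (2 * r ^ k)) = p := ZMod.coe_unitOfCoprime p hpn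
  have hpos := orderOf_pos P
  have h1 : P ^ q ≠ 1 := by
    intro h1
    have := Nat.le_of_dvd (by omega) (orderOf_dvd_of_pow_eq_one h1)
    omega
  have h2 : P ^ (q + q) = 1 := by rw [← hq, pow_orderOf_eq_one]
  have hp1 : 1 ≤ p ^ q := Nat.one_le_pow _ _ hp.out.pos
  have h3 : 2 * r ^ k ∣ (p ^ q - 1) * (p ^ q + 1) := by
    have h4 := congrArg Units.val h2
    rw [Units.val_pow_eq_pow_val, hP, Units.val_one, pow_add] at h4
    rw [← ZMod.natCast_eq_zero_iff, Nat.cast_mul, Nat.cast_sub hp1]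
    push_cast at h4 ⊢
    linear_combination h4
  have hnd : ¬ r ∣ p ^ q + 1 := fun h => hj (exists_pow_eq hr2 hpn h)
  have h4 : (r ^ k).Coprime (p ^ q + 1) :=
    ((Nat.Prime.coprime_iff_not_dvd hrp).2 hnd).pow_left k
  have h5 := h4.dvd_of_dvd_mul_right ((Dvd.intro_left 2 rfl).trans h3)
  have h6 : 2 ∣ p ^ q - 1 := by
    have h3 : Odd p := by
      rcases hp.out.eq_two_or_odd' with h | h
      · exfalso
        rw [h] at hpn
        have := Nat.Coprime.coprime_dvd_right (Dvd.intro _ rfl : 2 ∣ 2 * r ^ k) hpn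
        exact absurd this (by decide)
      · exact h
    obtain ⟨i, hi⟩ := h3.pow (n := q)
    exact ⟨i, by omega⟩
  have h7 : 2 * r ^ k ∣ p ^ q - 1 := by
    refine Nat.Coprime.mul_dvd_of_dvd_of_dvd ?_ h6 h5
    exact ((Nat.coprime_primes Nat.prime_two hrp).2 (Ne.symm hr2)).pow_right k
  apply h1
  rw [Units.ext_iff, Units.val_pow_eq_pow_val, hP, Units.val_one]
  rw [← ZMod.natCast_eq_zero_iff, Nat.cast_sub hp1] at h7
  push_cast at h7 ⊢
  linear_combination h7

/-- exponents modulo a power of `r` -/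
theorem oddPlace_one {p r k n : ℕ} [Fact p.Prime] [hr : Fact r.Prime] (h4 : r % 4 = 3)
    (hpn : p.Coprime n) (hk : 0 < k) (hn : n = 1 * r ^ k) {E : Type} [Field E] (F : RField r 1 n E)
    {a : Fin 5 → ZMod n} (ha : ∀ i, residues a i ≠ 0)
    (hs : ¬ ∃ f, ∀ i, (p : ZMod n) ^ f * a i = -a i) (y : E)
    (hy : y * F.σ y = -∏ i, (1 - F.ζ ^ (residues a i).val)) : OddPlace p a := by
  have hn' : n = r ^ k := by rw [hn, one_mul]
  subst hn'
  have hpr : p ≠ r := by
    rintro rfl
    have h1 := Nat.Coprime.coprime_dvd_right (dvd_pow_self p hk.ne') hpn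
    rw [Nat.coprime_self] at h1
    exact hr.out.one_lt.ne' h1
  have h := Pool.Agent.Helper79.RC.dual_or_place_of_norm h4 hpr
    (F.base (by rw [one_mul]) (pow_pos hr.out.pos k)) ha y (by
      change y * F.σ y = -∏ i, (1 - (F.ζ ^ 1) ^ (residues a i).val)
      rw [pow_one]
      exact hy)
  rcases h with ⟨f, -, -, -, -, hf, -⟩ | h
  · exact absurd ⟨f, hf⟩ hs
  · exact h

/-- exponents modulo four -/
theorem oddPlace_four {p n : ℕ} [hp : Fact p.Prime] (hn : n = 4) (hpn : p.Coprime n) {E : Type}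
    [Field E] (F : RField 2 1 n E) {a : Fin 5 → ZMod n} (ha : ∀ i, residues a i ≠ 0)
    (hs : ¬ ∃ f, ∀ i, (p : ZMod n) ^ f * a i = -a i) (y : E)
    (hy : y * F.σ y = -∏ i, (1 - F.ζ ^ (residues a i).val)) : OddPlace p a := by
  subst hn
  have h1 := even_height (F.base (k := 2) (by norm_num) (by norm_num)) ha y (by
      change y * F.σ y = -∏ i, (1 - (F.ζ ^ 1) ^ (residues a i).val)
      rw [pow_one]
      exact hy)
  have h2 : p % 2 = 1 := by
    rcases hp.out.eq_two_or_odd with h | h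
    · exfalso
      rw [h] at hpn
      exact absurd hpn (by decide)
    · exact h
  have h3 : p % 4 = 1 ∨ p % 4 = 3 := by omega
  rcases h3 with h3 | h3
  · have h4 : (p : ZMod 4) = 1 := by
      rw [← ZMod.natCast_mod, h3]
      rfl
    refine ⟨1, one_pos, fun i => by rw [pow_one, h4, one_mul], 1, ?_⟩
    rw [Finset.sum_range_one]
    simp only [Units.val_one, pow_zero, one_mul]
    exact odd_one.add_even h1
  · exfalso
    have h4 : (p : ZMod 4) = -1 := by
      rw [← ZMod.natCast_mod, h3]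
      rfl
    exact hs ⟨1, fun i => by rw [pow_one, h4, neg_one_mul]⟩

/-- **Main theorem.**  Let `n` be a number with `φ(n) / 2` odd, that is, `n = 4`, `n = r ^ k` or
`n = 2 * r ^ k` for a prime number `r` congruent to `3` modulo `4`, and `r = 2` for `n = 4`.  Then
Frobenius is semisimple on the second cohomology with coefficients in `ℚ_r` of the abelian covers
of exponent `n` of the plane branched along a complete quadrilateral, if the characteristic is
prime to `n` and, for `n = 2 * r ^ k` and `r` congruent to `3` modulo `8`, each character of the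
group has an even number of exponents of order two. -/
theorem result (p r c k n : ℕ) [hp : Fact p.Prime] [hr : Fact r.Prime] (hc : c = 1 ∨ c = 2)
    (hcr : c.Coprime r) (hn : n = c * r ^ k) (hodd : Odd (n.totient / 2)) (hpn : p.Coprime n)
    {E L V : Type} [Field E] [Field L] [Algebra E L] [CharZero L] [IsAlgClosed L]
    [AddCommGroup V] [Module L V] [FiniteDimensional L V] (F : RField r c n E)
    (H : RationalH2 p F L V)
    (h2 : c = 2 → r % 8 = 3 → ∀ a, H.W a ≠ ⊥ → (∀ i, residues a i ≠ 0) →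
      Even (Finset.univ.filter fun i => 2 * residues a i = 0).card) :
    End.IsSemisimple H.Fr := by
  subst hn
  have hrp : r.Prime := hr.out
  have hn0 : 0 < c * r ^ k := Nat.mul_pos (by omega) (pow_pos hrp.pos k)
  have : NeZero (c * r ^ k) := ⟨hn0.ne'⟩
  have hcases := cases_of_odd hc hcr hodd
  -- minus one is no norm
  have hnorm : ∀ y : E, y * F.σ y ≠ -1 := by
    intro y
    rcases hcases with ⟨hk, h4⟩ | ⟨h, h', h''⟩
    · exact (F.base rfl hn0).neg_one_ne h4 (Nat.one_lt_pow hk.ne' hrp.one_lt) y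
    · subst h h' h''
      exact (F.base rfl hn0).neg_one_ne_two y
  apply semisimple_of_iSup
  rw [eq_top_iff, ← H.span]
  refine sup_le (le_of_semisimple H.N_stable H.N_semisimple) (iSup_le fun a => ?_)
  by_cases ha2 : ∃ i, 2 * a i ≠ 0
  · by_cases hs : ∃ f, ∀ i, (p : ZMod (c * r ^ k)) ^ f * a i = -a i
    · obtain ⟨f, hf⟩ := hs
      exact case_self H ha2 hf hnorm
    · refine case_norm H hpn ha2 ?_
      intro hW hres y hy
      rcases hcases with ⟨hk, h4⟩ | ⟨h, h', h''⟩
      · rcases hc with h | h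
        · subst h
          exact oddPlace_one h4 hpn hk rfl F hres hs y hy
        · subst h
          refine Pool.Agent.Helper79.RC.oddPlace_two h4 hk hpn F hres ?_
            (odd_order (by omega) hpn ?_) y hy
          · have h8 : r % 8 = 3 ∨ r % 8 = 7 := by omega
            rcases h8 with h8 | h8
            · exact Or.inr (h2 rfl h8 a hW hres)
            · exact Or.inl h8
          · rintro ⟨f, hf⟩
            exact hs ⟨f, fun i => by rw [hf]; ring⟩
      · subst h h' h''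
        exact oddPlace_four (by norm_num) hpn F hres hs y hy
  · push Not at ha2
    exact case_two H.toQuadrilateralH2 hp.out hpn ha2

end Pool.Agent.Results.MP_1fe969_ag.RamifiedCovers
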